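import Pool.Agent.H51.KV.Core
import Pool.Agent.H51.SB.Sub

set_option autoImplicit false

/-!
# Adding a curve
-/

namespace Pool.Agent.H51.KV

open MvPolynomial Module Pool.Agent.W609 Pool.Agent.W609.CR Pool.Agent.TH167 Pool.Agent.TH167.SH
open Pool.Agent.TH167.DD

/-- `h⁰ (K + S)` for `S = (e; u)`. -/
noncomputable def hK {K : Type} [Field K] {s : ℕ} (P : Fin s → Fin 2 → K) (e : ℕ)
    (u : Fin s → ℕ) : ℕ :=
  if 3 ≤ e then finrank K ↥(VS (fun j => aff (P j)) (fun j => u j - 1) (e - 3)) else 0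

/-- The arithmetic genus. -/
def pa {s : ℕ} (e : ℕ) (u : Fin s → ℕ) : ℤ :=
  ((e - 1).choose 2 : ℕ) - ∑ j, ((u j).choose 2 : ℤ)

theorem two_choose_int (v : ℕ) : (2 : ℤ) * (v.choose 2 : ℕ) = v * (v - 1) := by
  rcases Nat.eq_zero_or_pos v with h | h
  · subst h
    simp
  · obtain ⟨v', rfl⟩ : ∃ v', v = v' + 1 := ⟨v - 1, by omega⟩
    have e2 : (v' + 1).choose 2 * 2 = (v' + 1) * v' := by
      have := Nat.choose_two_right (v' + 1)
      rw [this, Nat.add_sub_cancel]
      exact Nat.div_mul_cancel ((by rw [mul_comm]; exact (Nat.even_mul_succ_self v').two_dvd))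
    have e3 : (((v' + 1).choose 2 * 2 : ℕ) : ℤ) = (((v' + 1) * v' : ℕ) : ℤ) := by rw [e2]
    push_cast at e3 ⊢
    linarith

theorem two_pa {s : ℕ} {e : ℕ} (he : 1 ≤ e) (u : Fin s → ℕ) :
    2 * pa e u = ip e u e u - kk e u + 2 := by
  unfold pa ip kk
  obtain ⟨e', rfl⟩ : ∃ e', e = e' + 1 := ⟨e - 1, by omega⟩
  have h1 := two_choose_int e'
  have h2 : (2 : ℤ) * ∑ j, ((u j).choose 2 : ℤ) =
      ∑ j, (u j : ℤ) * u j - ∑ j, (u j : ℤ) := by
    rw [Finset.mul_sum, ← Finset.sum_sub_distrib]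
    refine Finset.sum_congr rfl fun j _ => ?_
    have h3 := two_choose_int (u j)
    linarith
  rw [Nat.add_sub_cancel]
  push_cast
  linarith

theorem ip_symm {s : ℕ} (d : ℕ) (w : Fin s → ℕ) (e : ℕ) (u : Fin s → ℕ) :
    ip d w e u = ip e u d w := by
  unfold ip
  rw [mul_comm]
  congr 1
  exact Finset.sum_congr rfl fun j _ => mul_comm _ _

theorem ip_add_left {s : ℕ} (d : ℕ) (w : Fin s → ℕ) (e : ℕ) (u : Fin s → ℕ) (f : ℕ)
    (v : Fin s → ℕ) : ip (d + e) (fun j => w j + u j) f v = ip d w f v + ip e u f v := by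
  unfold ip
  have h : ∑ j, ((w j + u j : ℕ) : ℤ) * (v j : ℤ) =
      ∑ j, (w j : ℤ) * v j + ∑ j, (u j : ℤ) * v j := by
    rw [← Finset.sum_add_distrib]
    refine Finset.sum_congr rfl fun j _ => ?_
    push_cast
    ring
  rw [h]
  push_cast
  ring

theorem kk_add {s : ℕ} (d : ℕ) (w : Fin s → ℕ) (e : ℕ) (u : Fin s → ℕ) :
    kk (d + e) (fun j => w j + u j) = kk d w + kk e u := by
  unfold kk
  have h : ∑ j, ((w j + u j : ℕ) : ℤ) = ∑ j, (w j : ℤ) + ∑ j, (u j : ℤ) := by
    rw [← Finset.sum_add_distrib]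
    exact Finset.sum_congr rfl fun j _ => by push_cast; ring
  rw [h]
  push_cast
  ring

theorem pa_add {s : ℕ} {e c : ℕ} (he : 1 ≤ e) (hc : 1 ≤ c) (u w : Fin s → ℕ) :
    pa (e + c) (fun j => u j + w j) = pa e u + pa c w + ip e u c w - 1 := by
  have h1 := two_pa (by omega : 1 ≤ e + c) (fun j => u j + w j)
  have h2 := two_pa he u
  have h3 := two_pa hc w
  rw [kk_add, ip_add_left, ip_symm e u, ip_symm c w, ip_add_left, ip_add_left,
    ip_symm c w e u] at h1
  linarith

/-- `h¹ (K + S) = 0` -/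
def Good {K : Type} [Field K] {s : ℕ} (P : Fin s → Fin 2 → K) (e : ℕ) (u : Fin s → ℕ) : Prop :=
  (hK P e u : ℤ) ≤ pa e u

theorem dvd_small {K : Type} [Field K] {G f : MvPolynomial (Fin 3) K} {c n : ℕ} (hc : n < c)
    (hG0 : G ≠ 0) (hGc : G.IsHomogeneous c) (hf : f.IsHomogeneous n) (h : G ∣ f) : f = 0 := by
  by_contra hf0
  obtain ⟨x, hx⟩ := h
  have hx0 : x ≠ 0 := fun h => hf0 (by rw [hx, h, mul_zero])
  have h1 := hf.totalDegree hf0
  rw [hx, MvPolynomial.totalDegree_mul_of_isDomain hG0 hx0, hGc.totalDegree hG0] at h1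
  omega

/-- The multiples of `G` in a system. -/
theorem dvd_mem {K : Type} [Field K] {s : ℕ} {P : Fin s → Fin 2 → K}
    {G f : MvPolynomial (Fin 3) K} {e c : ℕ} (he : 3 ≤ e) {u w : Fin s → ℕ}
    (hG0 : G ≠ 0) (hGc : G.IsHomogeneous c) (hw : ∀ i, Ord (aff (P i)) (w i) G)
    (hf : f ∈ VS (fun j => aff (P j)) (fun j => u j + w j - 1) (e + c - 3)) (h : G ∣ f) :
    f ∈ (VS (fun j => aff (P j)) (fun j => u j - 1) (e - 3)).map (LinearMap.mulLeft K G) := by
  obtain ⟨x, hx⟩ := h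
  have hf' := (mem_VS _ _ _ _).1 hf
  by_cases hf0 : f = 0
  · rw [hf0]
    exact Submodule.zero_mem _
  have hxh := Pool.Agent.Chud.homog_of_dvd hf'.1 hf0 ⟨G, by rw [hx, mul_comm]⟩
  have h1 := hGc.mul hxh
  rw [← hx] at h1
  have h2 := h1.inj_right hf'.1 hf0
  have h3 : x.totalDegree = e - 3 := by omega
  rw [h3] at hxh
  refine ⟨x, (mem_VS _ _ _ _).2 ⟨hxh, fun j => ?_⟩, hx.symm⟩
  rcases Nat.eq_zero_or_pos (u j) with h0 | h0
  · show Van (aff (P j)) (u j - 1) x
    rw [h0]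
    exact van_zero _ _
  · refine van_of_mul (hw j) ?_
    rw [← hx]
    exact van_mono (by omega) (hf'.2 j)

theorem finrank_mulMap {K : Type} [Field K] {G : MvPolynomial (Fin 3) K} (hG0 : G ≠ 0)
    (A : Submodule K (MvPolynomial (Fin 3) K)) :
    finrank K ↥(A.map (LinearMap.mulLeft K G)) = finrank K ↥A := by
  have hinj : Function.Injective (LinearMap.mulLeft K G) := by
    intro a b hab
    rw [LinearMap.mulLeft_apply, LinearMap.mulLeft_apply] at hab
    exact mul_left_cancel₀ hG0 hab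
  exact (LinearEquiv.finrank_eq (Submodule.equivMapOfInjective _ hinj _)).symm

theorem pa_nonneg_line {s : ℕ} {w : Fin s → ℕ} (hw : ∀ j, w j ≤ 1) : pa 1 w = 0 := by
  unfold pa
  have h : ∑ j, ((w j).choose 2 : ℤ) = 0 := by
    refine Finset.sum_eq_zero fun j _ => ?_
    have h1 := hw j
    have h2 : (w j).choose 2 = 0 := Nat.choose_eq_zero_of_lt (by omega)
    exact_mod_cast h2
  rw [h]
  simp

/-- Irreducible curves. -/
theorem good_curve {K : Type} [Field K] [CharZero K] [IsAlgClosed K] {s : ℕ}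
    {G : MvPolynomial (Fin 3) K} {c : ℕ} (hG : Irreducible G) (hGc : G.IsHomogeneous c)
    (hc : 1 ≤ c) {P : Fin s → Fin 2 → K} (hP : Function.Injective P) {w : Fin s → ℕ}
    (hw : ∀ i, Ord (aff (P i)) (w i) G) : Good P c w := by
  unfold Good
  rcases Nat.lt_or_ge c 3 with h3 | h3
  · unfold hK
    rw [if_neg (by omega)]
    have h1 : ∀ j, w j ≤ 1 := by
      intro j
      rcases Nat.lt_or_ge c 2 with h2 | h2
      · have := van_le hG.ne_zero hGc (hw j).1
        omega
      · have := ord_lt hG hGc h2 (hw j).1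
        omega
    have h : ∑ j, ((w j).choose 2 : ℤ) = 0 := by
      refine Finset.sum_eq_zero fun j _ => ?_
      have h2 : (w j).choose 2 = 0 := Nat.choose_eq_zero_of_lt (by have := h1 j; omega)
      exact_mod_cast h2
    unfold pa
    rw [h]
    simp
  · unfold hK
    rw [if_pos h3]
    have hsum : ∑ j, ((w j - 1 : ℕ) : ℤ) * w j = ∑ j, (w j : ℤ) * (w j - 1) := by
      refine Finset.sum_congr rfl fun j _ => ?_
      rcases Nat.eq_zero_or_pos (w j) with h | h
      · rw [h]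
        simp
      · push_cast [Nat.cast_sub h]
        ring
    have hn : ((c - 3 : ℕ) : ℤ) = c - 3 := by push_cast [Nat.cast_sub h3]; ring
    have h1 := core hG hGc (by omega) hP hw (fun j => w j - 1) (c - 3) 1 le_rfl (by
      rw [hsum, hn]
      push_cast
      nlinarith) (⊥ : Submodule K (MvPolynomial (Fin 3) K)) (by
      intro f hf hd
      rw [Submodule.mem_bot]
      exact dvd_small (by omega : c - 3 < c) hG.ne_zero hGc ((mem_VS _ _ _ _).1 hf).1 hd)
    rw [finrank_bot, hsum, hn] at h1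
    have h2 : 2 * pa c w = (c : ℤ) * (c - 3) - ∑ j, (w j : ℤ) * (w j - 1) + 2 := by
      rw [two_pa (by omega)]
      unfold ip kk
      have h4 : ∑ j, (w j : ℤ) * (w j - 1) = ∑ j, (w j : ℤ) * w j - ∑ j, (w j : ℤ) := by
        rw [← Finset.sum_sub_distrib]
        exact Finset.sum_congr rfl fun j _ => by ring
      rw [h4]
      ring
    have h5 : pa c w = ((c - 1).choose 2 : ℕ) - ∑ j, ((w j).choose 2 : ℤ) := rfl
    rw [← h5] at h1
    push_cast at h1
    linarith

/-- Adding an irreducible curve of degree at least two. -/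
theorem good_add {K : Type} [Field K] [CharZero K] [IsAlgClosed K] {s : ℕ}
    {G : MvPolynomial (Fin 3) K} {c : ℕ} (hG : Irreducible G) (hGc : G.IsHomogeneous c)
    (hc : 2 ≤ c) {P : Fin s → Fin 2 → K} (hP : Function.Injective P) {w : Fin s → ℕ}
    (hw : ∀ i, Ord (aff (P i)) (w i) G) {e : ℕ} (he : 1 ≤ e) {u : Fin s → ℕ}
    (hgood : Good P e u) (hip : 1 ≤ ip e u c w) : Good P (e + c) (fun j => u j + w j) := by
  unfold Good at hgood ⊢
  have hG0 := hG.ne_zero
  have hfinM : Module.Finite K ↥(VS (fun j => aff (P j)) (fun j => u j - 1) (e - 3)) :=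
    vs_fin _ _ _
  obtain ⟨M, hMf, hM, hMr⟩ : ∃ M : Submodule K (MvPolynomial (Fin 3) K), Module.Finite K ↥M ∧
      (∀ f ∈ VS (fun j => aff (P j)) (fun j => u j + w j - 1) (e + c - 3), G ∣ f → f ∈ M) ∧
      finrank K ↥M = hK P e u := by
    unfold hK
    by_cases h3 : 3 ≤ e
    · refine ⟨(VS (fun j => aff (P j)) (fun j => u j - 1) (e - 3)).map (LinearMap.mulLeft K G),
        ?_, fun f hf hd => dvd_mem h3 hG0 hGc hw hf hd, ?_⟩
      · infer_instance
      · rw [if_pos h3, finrank_mulMap hG0]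
    · refine ⟨⊥, inferInstance, fun f hf hd => ?_, ?_⟩
      · rw [Submodule.mem_bot]
        exact dvd_small (by omega : e + c - 3 < c) hG0 hGc ((mem_VS _ _ _ _).1 hf).1 hd
      · rw [if_neg h3, finrank_bot]
  have hsum : ∑ j, ((u j + w j - 1 : ℕ) : ℤ) * w j =
      ∑ j, (w j : ℤ) * (w j - 1) + ∑ j, (u j : ℤ) * w j := by
    rw [← Finset.sum_add_distrib]
    refine Finset.sum_congr rfl fun j _ => ?_
    rcases Nat.eq_zero_or_pos (w j) with h | h
    · rw [h]
      simp
    · have h1 : ((u j + w j - 1 : ℕ) : ℤ) = u j + w j - 1 := by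
        push_cast [Nat.cast_sub (by omega : 1 ≤ u j + w j)]
        ring
      rw [h1]
      ring
  have hn : ((e + c - 3 : ℕ) : ℤ) = e + c - 3 := by
    push_cast [Nat.cast_sub (by omega : 3 ≤ e + c)]
    ring
  have hip' : 1 ≤ (e : ℤ) * c - ∑ j, (u j : ℤ) * w j := hip
  have h1 := core hG hGc hc hP hw (fun j => u j + w j - 1) (e + c - 3) 0 (by omega) (by
    rw [hsum, hn]
    push_cast
    nlinarith) M hM
  rw [hsum, hn, hMr] at h1
  have h2 : 2 * pa c w = (c : ℤ) * (c - 3) - ∑ j, (w j : ℤ) * (w j - 1) + 2 := by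
    rw [two_pa (by omega)]
    unfold ip kk
    have h4 : ∑ j, (w j : ℤ) * (w j - 1) = ∑ j, (w j : ℤ) * w j - ∑ j, (w j : ℤ) := by
      rw [← Finset.sum_sub_distrib]
      exact Finset.sum_congr rfl fun j _ => by ring
    rw [h4]
    ring
  have h5 : pa c w = ((c - 1).choose 2 : ℕ) - ∑ j, ((w j).choose 2 : ℤ) := rfl
  rw [← h5] at h1
  push_cast at h1
  have h6 : hK P (e + c) (fun j => u j + w j) =
      finrank K ↥(VS (fun j => aff (P j)) (fun j => u j + w j - 1) (e + c - 3)) := by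
    unfold hK
    rw [if_pos (by omega)]
  rw [h6, pa_add he (by omega)]
  have h7 : ip e u c w = (e : ℤ) * c - ∑ j, (u j : ℤ) * w j := rfl
  rw [h7]
  linarith

/-- Points of a line. -/
theorem line_points {K : Type} [Field K] [CharZero K] {s : ℕ}
    {G : MvPolynomial (Fin 3) K} (hG1 : G.IsHomogeneous 1) (hX : ¬ X 2 ∣ G)
    (P : Fin s → Fin 2 → K) (n : ℕ) :
    ∃ Q : Finset (Fin 2 → K), Q.card = n ∧ (∀ j, P j ∉ Q) ∧ ∀ q ∈ Q, eval (aff q) G = 0 := by
  classical
  have hev : ∀ q : Fin 2 → K, eval (aff q) G = G.coeff (Finsupp.single 0 1) * q 0 +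
      G.coeff (Finsupp.single 1 1) * q 1 + G.coeff (Finsupp.single 2 1) := by
    intro q
    rw [SH.eval_lin hG1, Fin.sum_univ_three]
    simp [aff]
  have hinf : {q : Fin 2 → K | eval (aff q) G = 0}.Infinite := by
    by_cases hb : G.coeff (Finsupp.single 1 1) = 0
    · have ha : G.coeff (Finsupp.single 0 1) ≠ 0 := by
        intro ha
        apply hX
        rw [lin_form hG1, Fin.sum_univ_three, ha, hb]
        simp
      refine Set.infinite_of_injective_forall_mem
        (f := fun t : K => (![-(G.coeff (Finsupp.single 2 1)) / G.coeff (Finsupp.single 0 1), t] :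
          Fin 2 → K)) ?_ ?_
      · intro a b hab
        simpa using congrFun hab 1
      · intro t
        rw [Set.mem_setOf_eq, hev, hb]
        simp
        field_simp
        ring
    · refine Set.infinite_of_injective_forall_mem
        (f := fun t : K => (![t, -(G.coeff (Finsupp.single 0 1) * t +
          G.coeff (Finsupp.single 2 1)) / G.coeff (Finsupp.single 1 1)] : Fin 2 → K)) ?_ ?_
      · intro a b hab
        simpa using congrFun hab 0
      · intro t
        rw [Set.mem_setOf_eq, hev]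
        simp
        field_simp
        ring
  have hinf2 := hinf.diff (Set.finite_range P)
  obtain ⟨Q, hQ, hQc⟩ := hinf2.exists_subset_card_eq n
  exact ⟨Q, hQc, fun j hj => (hQ hj).2 ⟨j, rfl⟩, fun q hq => (hQ hq).1⟩

/-- Adding a line. -/
theorem good_add_line {K : Type} [Field K] [CharZero K] [IsAlgClosed K] {s : ℕ}
    {G : MvPolynomial (Fin 3) K} (hG : Irreducible G) (hG1 : G.IsHomogeneous 1)
    (hX : ¬ X 2 ∣ G) {P : Fin s → Fin 2 → K} (hP : Function.Injective P) {w : Fin s → ℕ}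
    (hw : ∀ i, Ord (aff (P i)) (w i) G) {e : ℕ} (he : 1 ≤ e) {u : Fin s → ℕ}
    (hgood : Good P e u) (hip : 1 ≤ ip e u 1 w) : Good P (e + 1) (fun j => u j + w j) := by
  unfold Good at hgood ⊢
  have hG0 := hG.ne_zero
  have hw1 : ∀ j, w j ≤ 1 := fun j => van_le hG0 hG1 (hw j).1
  have hpa := pa_nonneg_line hw1
  rw [pa_add he le_rfl, hpa]
  have hip' : 1 ≤ (e : ℤ) * (1 : ℕ) - ∑ j, (u j : ℤ) * w j := hip
  by_cases h2 : e < 2
  · have h0 : hK P (e + 1) (fun j => u j + w j) = 0 := by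
      unfold hK
      rw [if_neg (by omega)]
    rw [h0]
    have := Nat.zero_le (hK P e u)
    have : (0 : ℤ) ≤ hK P e u := by positivity
    push_cast
    linarith
  push Not at h2
  have hsumN : ∑ j, u j * w j + 1 ≤ e := by
    have : (∑ j, (u j : ℤ) * w j) + 1 ≤ e := by push_cast at hip'; linarith
    exact_mod_cast this
  obtain ⟨R, hR⟩ : ∃ R, R + ∑ j, u j * w j + 1 = e := ⟨e - (∑ j, u j * w j + 1), by omega⟩
  obtain ⟨Q, hQc, hQP, hQG⟩ := line_points hG1 hX P R
  have hfinM : Module.Finite K ↥(VS (fun j => aff (P j)) (fun j => u j - 1) (e - 3)) :=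
    vs_fin _ _ _
  have hfinA : Module.Finite K ↥(VS (fun j => aff (P j)) (fun j => u j + w j - 1) (e + 1 - 3)) :=
    vs_fin _ _ _
  obtain ⟨M, hMf, hM, hMr⟩ : ∃ M : Submodule K (MvPolynomial (Fin 3) K), Module.Finite K ↥M ∧
      (∀ f ∈ VS (fun j => aff (P j)) (fun j => u j + w j - 1) (e + 1 - 3), G ∣ f → f ∈ M) ∧
      finrank K ↥M = hK P e u := by
    unfold hK
    by_cases h3 : 3 ≤ e
    · refine ⟨(VS (fun j => aff (P j)) (fun j => u j - 1) (e - 3)).map (LinearMap.mulLeft K G),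
        ?_, fun f hf hd => dvd_mem h3 hG0 hG1 hw hf hd, ?_⟩
      · infer_instance
      · rw [if_pos h3, finrank_mulMap hG0]
    · refine ⟨⊥, inferInstance, fun f hf hd => ?_, ?_⟩
      · rw [Submodule.mem_bot]
        exact dvd_small (by omega : e + 1 - 3 < 1) hG0 hG1 ((mem_VS _ _ _ _).1 hf).1 hd
      · rw [if_neg h3, finrank_bot]
  have hdA := ev_dim Q (VS (fun j => aff (P j)) (fun j => u j + w j - 1) (e + 1 - 3)) M (by
    intro f hf hfQ
    have hf' := (mem_VS _ _ _ _).1 hf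
    refine hM f hf ?_
    by_contra hnd
    have hf0 : f ≠ 0 := fun h => hnd (by rw [h]; exact dvd_zero _)
    have h1 := bezQ hP hG hG1 (fun j => (hw j).1) hf0 hf'.1 hf'.2 hnd hQP hQG hfQ
    have h3 : ∑ j, w j * (u j + w j - 1) = ∑ j, u j * w j := by
      refine Finset.sum_congr rfl fun j _ => ?_
      rcases Nat.lt_or_ge (w j) 1 with h | h
      · have : w j = 0 := by omega
        rw [this]
        simp
      · have : w j = 1 := le_antisymm (hw1 j) h
        rw [this]
        simp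
    rw [h3, hQc] at h1
    omega)
  have hQle : finrank K ↥((VS (fun j => aff (P j)) (fun j => u j + w j - 1) (e + 1 - 3)).map
      (ev Q)) ≤ Q.card := by
    have h1 := Submodule.finrank_le ((VS (fun j => aff (P j)) (fun j => u j + w j - 1)
      (e + 1 - 3)).map (ev Q))
    rw [finrank_fintype_fun_eq_card, Fintype.card_coe] at h1
    exact h1
  have h6 : hK P (e + 1) (fun j => u j + w j) =
      finrank K ↥(VS (fun j => aff (P j)) (fun j => u j + w j - 1) (e + 1 - 3)) := by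
    unfold hK
    rw [if_pos (by omega)]
  rw [h6]
  have h7 : ip e u 1 w = (e : ℤ) * (1 : ℕ) - ∑ j, (u j : ℤ) * w j := rfl
  have h8 : (∑ j, (u j : ℤ) * w j) = ((∑ j, u j * w j : ℕ) : ℤ) := by push_cast; rfl
  rw [h7, h8]
  push_cast
  have h9 : (R : ℤ) + (∑ j, u j * w j : ℕ) + 1 = e := by exact_mod_cast hR
  have h10 : (finrank K ↥(VS (fun j => aff (P j)) (fun j => u j + w j - 1) (e + 1 - 3)) : ℤ) ≤
      hK P e u + R := by
    have : finrank K ↥(VS (fun j => aff (P j)) (fun j => u j + w j - 1) (e + 1 - 3)) ≤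
      hK P e u + R := by omega
    exact_mod_cast this
  push_cast at h9
  linarith

end Pool.Agent.H51.KV
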