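import Pool.Agent.H51.KV.Add
import Pool.Graph.R_pool_sql_team_seeded_c8625f6e.K4H28.TC.Forms

set_option autoImplicit false

/-!
# Vanishing for nef and big classes with a member
-/

namespace Pool.Agent.H51.KV

open MvPolynomial Module Pool.Agent.W609 Pool.Agent.W609.CR Pool.Agent.TH167 Pool.Agent.TH167.SH
open Pool.Agent.TH167.DD

theorem choose_pred (v : ℕ) : (v - 1 + 1).choose 2 = v.choose 2 := by
  rcases Nat.eq_zero_or_pos v with h | h
  · rw [h]
    rfl
  · rw [Nat.sub_add_cancel h]

theorem pa_eq_chi {s : ℕ} {e : ℕ} (he : 3 ≤ e) (u : Fin s → ℕ) :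
    pa e u = chi (e - 3) (fun j => u j - 1) := by
  unfold pa chi
  have h1 : e - 3 + 2 = e - 1 := by omega
  rw [h1]
  congr 1
  exact Finset.sum_congr rfl fun j _ => by rw [choose_pred]

/-- Adding an exceptional curve. -/
theorem good_exc {K : Type} [Field K] [CharZero K] {s : ℕ} {P : Fin s → Fin 2 → K}
    (hP : AlgebraicIndependent ℚ (fun ij : Fin s × Fin 2 => P ij.1 ij.2)) {e : ℕ}
    {u : Fin s → ℕ} (hgood : Good P e u) (j : Fin s) :
    Good P e (Function.update u j (u j - 1)) := by
  classical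
  unfold Good at hgood ⊢
  by_cases h3 : 3 ≤ e
  · rw [pa_eq_chi h3] at hgood ⊢
    have e1 : (fun i => Function.update u j (u j - 1) i - 1) =
        Function.update (fun i => u i - 1) j (u j - 1 - 1) := by
      funext i
      by_cases hi : i = j
      · subst hi
        rw [Function.update_self, Function.update_self]
      · rw [Function.update_of_ne hi, Function.update_of_ne hi]
    have h1 : ∀ v : Fin s → ℕ, hK P e v = K4H28.SP.gd (fun i => v i - 1) (e - 3) := by
      intro v
      unfold hK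
      rw [if_pos h3, K4H51.PTM.vs_gd hP]
    rw [h1] at hgood ⊢
    rw [e1]
    have h2 := SB.h1_update_mono (d := e - 3) (fun i => u i - 1) j
      (a := u j - 1 - 1) (Nat.sub_le _ _)
    unfold K4H51.PTM.h1 at h2
    linarith
  · have h0 : ∀ v : Fin s → ℕ, hK P e v = 0 := by
      intro v
      unfold hK
      rw [if_neg h3]
    rw [h0] at hgood ⊢
    refine le_trans hgood ?_
    unfold pa
    refine sub_le_sub_left (Finset.sum_le_sum fun i _ => ?_) _
    by_cases hi : i = j
    · subst hi
      rw [Function.update_self]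
      exact_mod_cast Nat.choose_le_choose 2 (Nat.sub_le _ _)
    · rw [Function.update_of_ne hi]

/-- A form which meets a class positively has an irreducible factor which does. -/
theorem exists_factor {s : ℕ} {P : Fin s → Fin 2 → ℂ} {e : ℕ} {u : Fin s → ℕ}
    (h : MvPolynomial (Fin 3) ℂ) : h ≠ 0 → ∀ (c : ℕ) (w : Fin s → ℕ), h.IsHomogeneous c →
      (∀ j, Ord (aff (P j)) (w j) h) → 1 ≤ ip e u c w →
      ∃ (G h' : MvPolynomial (Fin 3) ℂ) (a b : ℕ) (x y : Fin s → ℕ), h = G * h' ∧
        Irreducible G ∧ G.IsHomogeneous a ∧ h'.IsHomogeneous b ∧ a + b = c ∧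
        (∀ j, Ord (aff (P j)) (x j) G) ∧ (∀ j, Ord (aff (P j)) (y j) h') ∧
        (∀ j, x j + y j = w j) ∧ 1 ≤ ip e u a x := by
  classical
  refine WfDvdMonoid.induction_on_irreducible (motive := fun h => h ≠ 0 → ∀ (c : ℕ)
    (w : Fin s → ℕ), h.IsHomogeneous c → (∀ j, Ord (aff (P j)) (w j) h) → 1 ≤ ip e u c w →
      ∃ (G h' : MvPolynomial (Fin 3) ℂ) (a b : ℕ) (x y : Fin s → ℕ), h = G * h' ∧
        Irreducible G ∧ G.IsHomogeneous a ∧ h'.IsHomogeneous b ∧ a + b = c ∧
        (∀ j, Ord (aff (P j)) (x j) G) ∧ (∀ j, Ord (aff (P j)) (y j) h') ∧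
        (∀ j, x j + y j = w j) ∧ 1 ≤ ip e u a x) h
    (fun h0 => absurd rfl h0) ?_ ?_
  · intro F hF hF0 c w hFc hw hip
    exfalso
    have hc : c = 0 := by
      obtain ⟨g, hg⟩ := hF.exists_right_inv
      have hg0 : g ≠ 0 := by
        rintro rfl
        rw [mul_zero] at hg
        exact zero_ne_one hg
      have h3 := MvPolynomial.totalDegree_mul_of_isDomain hF0 hg0
      rw [hg, hFc.totalDegree hF0, MvPolynomial.totalDegree_one] at h3
      omega
    unfold ip at hip
    rw [hc] at hip
    have h4 : 0 ≤ ∑ j, (u j : ℤ) * w j := Finset.sum_nonneg fun j _ => by positivity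
    push_cast at hip
    linarith
  · intro F G hF0 hG ih hGF c w hFc hw hip
    have hGh := Pool.Agent.Chud.homog_of_dvd hFc hGF ⟨F, rfl⟩
    have hFh := Pool.Agent.Chud.homog_of_dvd hFc hGF ⟨G, mul_comm _ _⟩
    have hdeg : c = G.totalDegree + F.totalDegree := by
      rw [← MvPolynomial.totalDegree_mul_of_isDomain hG.ne_zero hF0, hFc.totalDegree hGF]
    choose x hx using fun i => K4H28.TC.exists_ord (a := P i) hG.ne_zero hGh
    choose y hy using fun i => K4H28.TC.exists_ord (a := P i) hF0 hFh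
    have hxy : ∀ j, x j + y j = w j := fun j => ord_unique (ord_mul (hx j) (hy j)) (hw j)
    by_cases hG1 : 1 ≤ ip e u G.totalDegree x
    · exact ⟨G, F, _, _, x, y, rfl, hG, hGh, hFh, hdeg.symm, hx, hy, hxy, hG1⟩
    · have h1 : 1 ≤ ip e u F.totalDegree y := by
        have h2 := ip_add_left G.totalDegree x F.totalDegree y e u
        have h3 : (fun j => x j + y j) = w := funext hxy
        rw [h3, ← hdeg, ip_symm c w, ip_symm _ x, ip_symm _ y] at h2
        omega
      obtain ⟨G', h', a, b, x', y', q1, q2, q3, q4, q5, q6, q7, q8, q9⟩ :=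
        ih hF0 _ y hFh hy h1
      refine ⟨G', G * h', a, G.totalDegree + b, x', fun j => x j + y' j, ?_, q2, q3, hGh.mul q4,
        by omega, q6, fun j => ord_mul (hx j) (q7 j), fun j => ?_, q9⟩
      · rw [q1]
        ring
      · show x' j + (x j + y' j) = w j
        have h4 := q8 j
        have h5 := hxy j
        omega

/-- Connectedness. -/
theorem conn {s : ℕ} (N e c : ℤ) (l u : Fin s → ℤ) (hN : e + c = N) (he : 1 ≤ e) (hc : 1 ≤ c)
    (h1 : 0 ≤ N * e - ∑ j, l j * u j) (h2 : 0 ≤ N * c - ∑ j, l j * (l j - u j))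
    (h3 : 0 < N * N - ∑ j, l j * l j) : 1 ≤ e * c - ∑ j, u j * (l j - u j) := by
  by_contra hcon
  obtain ⟨A, hA⟩ : ∃ A, A = ∑ j, u j ^ 2 := ⟨_, rfl⟩
  obtain ⟨B, hB⟩ : ∃ B, B = ∑ j, (l j - u j) ^ 2 := ⟨_, rfl⟩
  obtain ⟨X, hX⟩ : ∃ X, X = ∑ j, u j * (l j - u j) := ⟨_, rfl⟩
  have hcs : X ^ 2 ≤ A * B := by
    rw [hX, hA, hB]
    exact Finset.sum_mul_sq_le_sq_mul_sq _ _ _
  have e1 : ∑ j, l j * u j = A + X := by
    rw [hA, hX, ← Finset.sum_add_distrib]
    exact Finset.sum_congr rfl fun j _ => by ring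
  have e2 : ∑ j, l j * (l j - u j) = X + B := by
    rw [hB, hX, ← Finset.sum_add_distrib]
    exact Finset.sum_congr rfl fun j _ => by ring
  have e3 : ∑ j, l j * l j = A + 2 * X + B := by
    have : ∑ j, l j * l j = ∑ j, l j * u j + ∑ j, l j * (l j - u j) := by
      rw [← Finset.sum_add_distrib]
      exact Finset.sum_congr rfl fun j _ => by ring
    rw [this, e1, e2]
    ring
  rw [e1] at h1
  rw [e2] at h2
  rw [e3] at h3
  rw [← hX] at hcon
  subst hN
  have hA0 : 0 ≤ A := by rw [hA]; exact Finset.sum_nonneg fun j _ => sq_nonneg _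
  have hB0 : 0 ≤ B := by rw [hB]; exact Finset.sum_nonneg fun j _ => sq_nonneg _
  have hXe : e * c ≤ X := by omega
  have hA1 : A ≤ e ^ 2 := by nlinarith
  have hB1 : B ≤ c ^ 2 := by nlinarith
  have hec : 0 < e * c := by positivity
  have h4 : (e * c) ^ 2 ≤ X ^ 2 := pow_le_pow_left₀ hec.le hXe 2
  have h5 : A * B ≤ e ^ 2 * c ^ 2 := mul_le_mul hA1 hB1 hB0 (sq_nonneg _)
  have h6 : X ^ 2 ≤ (e * c) ^ 2 := by
    calc X ^ 2 ≤ A * B := hcs
      _ ≤ e ^ 2 * c ^ 2 := h5
      _ = (e * c) ^ 2 := by ring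
  have h7 : X = e * c := by
    have h8 : X ≤ e * c := abs_le_of_sq_le_sq' h6 hec.le |>.2
    omega
  rw [h7] at h3 h4 hcs
  rcases lt_or_ge A (e ^ 2) with h8 | h8
  · have h9 : A * B ≤ A * c ^ 2 := mul_le_mul_of_nonneg_left hB1 hA0
    have h10 : A * c ^ 2 < e ^ 2 * c ^ 2 := mul_lt_mul_of_pos_right h8 (by positivity)
    nlinarith
  · have hAe : A = e ^ 2 := le_antisymm hA1 h8
    have h9 : B < c ^ 2 := by nlinarith
    have h10 : e ^ 2 * B < e ^ 2 * c ^ 2 := mul_lt_mul_of_pos_left h9 (by positivity)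
    rw [hAe] at hcs
    nlinarith

/-- The induction. -/
theorem kv_aux {s : ℕ} {P : Fin s → Fin 2 → ℂ}
    (hP : AlgebraicIndependent ℚ (fun ij : Fin s × Fin 2 => P ij.1 ij.2)) {N : ℕ}
    {l : Fin s → ℕ}
    (hnef : ∀ (g : MvPolynomial (Fin 3) ℂ) (c : ℕ) (w : Fin s → ℕ), g ≠ 0 → g.IsHomogeneous c →
      (∀ j, Ord (aff (P j)) (w j) g) → 0 ≤ ip N l c w) (hbig : 0 < ip N l N l) :
    ∀ (n : ℕ) (g h : MvPolynomial (Fin 3) ℂ) (e c : ℕ) (u x y : Fin s → ℕ), g ≠ 0 → h ≠ 0 →
      ¬ X 2 ∣ h → g.IsHomogeneous e → h.IsHomogeneous c → e + c = N → 1 ≤ e →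
      (∀ j, Ord (aff (P j)) (x j) g) → (∀ j, Ord (aff (P j)) (y j) h) → (∀ j, u j ≤ x j) →
      (∀ j, l j ≤ u j + y j) → Good P e u → c + ∑ j, (u j + y j - l j) = n → Good P N l := by
  classical
  intro n
  induction n using Nat.strong_induction_on with
  | _ n ih =>
  intro g h e c u x y hg0 hh0 hX hg hh hN he hx hy hux hl hgood hn
  rcases Nat.eq_zero_or_pos n with h0 | h0
  · have hc0 : c = 0 := by omega
    have hu : ∀ j, u j = l j := by
      intro j
      have h1 : ∑ j, (u j + y j - l j) = 0 := by omega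
      have h2 := (Finset.sum_eq_zero_iff.1 h1) j (Finset.mem_univ j)
      have h3 := van_le hh0 hh (hy j).1
      have h4 := hl j
      omega
    have hu' : u = l := funext hu
    have he' : e = N := by omega
    rw [← hu', ← he']
    exact hgood
  -- the intersection number with the rest
  have key : 1 ≤ (e : ℤ) * c - ∑ j, (u j : ℤ) * ((l j : ℤ) - u j) := by
    have h1 : 0 ≤ (N : ℤ) * e - ∑ j, (l j : ℤ) * u j := by
      have h2 := hnef g e x hg0 hg hx
      unfold ip at h2
      have h3 : ∑ j, (l j : ℤ) * u j ≤ ∑ j, (l j : ℤ) * x j := by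
        refine Finset.sum_le_sum fun j _ => mul_le_mul_of_nonneg_left ?_ (by positivity)
        exact_mod_cast hux j
      linarith
    have h2 : 0 ≤ (N : ℤ) * c - ∑ j, (l j : ℤ) * ((l j : ℤ) - u j) := by
      have h2 := hnef h c y hh0 hh hy
      unfold ip at h2
      have h3 : ∑ j, (l j : ℤ) * ((l j : ℤ) - u j) ≤ ∑ j, (l j : ℤ) * y j := by
        refine Finset.sum_le_sum fun j _ => mul_le_mul_of_nonneg_left ?_ (by positivity)
        have := hl j
        have h4 : (l j : ℤ) ≤ u j + y j := by exact_mod_cast this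
        linarith
      linarith
    rcases Nat.eq_zero_or_pos c with hc0 | hc0
    · have hy0 : ∀ j, y j = 0 := by
        intro j
        have h3 := van_le hh0 hh (hy j).1
        omega
      have hle : ∀ j, (l j : ℤ) ≤ u j := by
        intro j
        have h3 := hl j
        rw [hy0 j] at h3
        exact_mod_cast h3
      rw [hc0]
      -- some `u j` is larger than `l j`
      obtain ⟨j0, hj0⟩ : ∃ j, l j < u j := by
        by_contra hcon
        push Not at hcon
        have h3 : ∑ j, (u j + y j - l j) = 0 := by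
          refine Finset.sum_eq_zero fun j _ => ?_
          rw [hy0 j]
          have := hcon j
          omega
        omega
      have h3 : ∑ j, (u j : ℤ) * ((l j : ℤ) - u j) ≤ -1 := by
        have h4 : ∀ j ∈ Finset.univ, (0 : ℤ) ≤ (u j : ℤ) * ((u j : ℤ) - l j) := fun j _ =>
          mul_nonneg (by positivity) (by have := hle j; linarith)
        have h5 := Finset.single_le_sum h4 (Finset.mem_univ j0)
        have h6 : (l j0 : ℤ) + 1 ≤ u j0 := by exact_mod_cast hj0
        have h7 : (0 : ℤ) ≤ l j0 := by positivity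
        have h8 : ∑ j, (u j : ℤ) * ((u j : ℤ) - l j) = -∑ j, (u j : ℤ) * ((l j : ℤ) - u j) := by
          rw [← Finset.sum_neg_distrib]
          exact Finset.sum_congr rfl fun j _ => by ring
        rw [h8] at h5
        have h9 : (1 : ℤ) ≤ (u j0 : ℤ) * ((u j0 : ℤ) - l j0) := by nlinarith
        linarith
      push_cast
      linarith
    · refine conn (N : ℤ) e c (fun j => (l j : ℤ)) (fun j => (u j : ℤ)) (by exact_mod_cast hN)
        (by exact_mod_cast he) (by exact_mod_cast hc0) h1 h2 ?_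
      have h3 := hbig
      unfold ip at h3
      exact h3
  have hsplit : (e : ℤ) * c - ∑ j, (u j : ℤ) * ((l j : ℤ) - u j) =
      ip e u c y + ∑ j, (u j : ℤ) * ((u j + y j - l j : ℕ) : ℤ) := by
    unfold ip
    have h1 : ∑ j, (u j : ℤ) * ((u j + y j - l j : ℕ) : ℤ) =
        ∑ j, (u j : ℤ) * y j - ∑ j, (u j : ℤ) * ((l j : ℤ) - u j) := by
      rw [← Finset.sum_sub_distrib]
      refine Finset.sum_congr rfl fun j _ => ?_
      push_cast [Nat.cast_sub (hl j)]
      ring
    rw [h1]
    ring
  rw [hsplit] at key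
  by_cases hE : ∃ j, 1 ≤ u j ∧ l j < u j + y j
  · obtain ⟨j, hj1, hj2⟩ := hE
    refine ih (n - 1) (by omega) g h e c (Function.update u j (u j - 1)) x y hg0 hh0 hX hg hh hN
      he hx hy ?_ ?_ (good_exc hP hgood j) ?_
    · intro i
      by_cases hi : i = j
      · subst hi
        rw [Function.update_self]
        have := hux i
        omega
      · rw [Function.update_of_ne hi]
        exact hux i
    · intro i
      by_cases hi : i = j
      · subst hi
        rw [Function.update_self]
        omega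
      · rw [Function.update_of_ne hi]
        exact hl i
    · have h1 : ∑ i, (u i + y i - l i) =
          ∑ i, (Function.update u j (u j - 1) i + y i - l i) + 1 := by
        rw [← Finset.add_sum_erase _ _ (Finset.mem_univ j),
          ← Finset.add_sum_erase Finset.univ
            (fun i => Function.update u j (u j - 1) i + y i - l i) (Finset.mem_univ j)]
        have h2 : ∑ i ∈ Finset.univ.erase j, (Function.update u j (u j - 1) i + y i - l i) =
            ∑ i ∈ Finset.univ.erase j, (u i + y i - l i) := by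
          refine Finset.sum_congr rfl fun i hi => ?_
          rw [Function.update_of_ne (Finset.ne_of_mem_erase hi)]
        rw [h2]
        simp only [Function.update_self]
        omega
      omega
  · push Not at hE
    have h1 : ∑ j, (u j : ℤ) * ((u j + y j - l j : ℕ) : ℤ) = 0 := by
      refine Finset.sum_eq_zero fun j _ => ?_
      rcases Nat.eq_zero_or_pos (u j) with h2 | h2
      · rw [h2]
        simp
      · have h3 := hE j h2
        have h4 : u j + y j - l j = 0 := by omega
        rw [h4]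
        simp
    rw [h1, add_zero] at key
    obtain ⟨G, h', a, b, w, z, q1, q2, q3, q4, q5, q6, q7, q8, q9⟩ :=
      exists_factor h hh0 c y hh hy key
    have ha : 1 ≤ a := deg_pos q2 q3
    have hXG : ¬ X 2 ∣ G := fun hd => hX (by rw [q1]; exact hd.mul_right _)
    have hXh' : ¬ X 2 ∣ h' := fun hd => hX (by rw [q1]; exact hd.mul_left _)
    have hh'0 : h' ≠ 0 := fun h0 => hh0 (by rw [q1, h0, mul_zero])
    have hinj := SH.inj_of_alg hP
    have hgood' : Good P (e + a) (fun j => u j + w j) := by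
      rcases Nat.lt_or_ge a 2 with h2 | h2
      · have ha1 : a = 1 := by omega
        subst ha1
        exact good_add_line q2 q3 hXG hinj q6 he hgood q9
      · exact good_add q2 q3 h2 hinj q6 he hgood q9
    refine ih (b + ∑ j, (u j + w j + z j - l j)) ?_ (g * G) h' (e + a) b (fun j => u j + w j)
      (fun j => x j + w j) z (mul_ne_zero hg0 q2.ne_zero) hh'0 hXh' (hg.mul q3) q4 (by omega)
      (by omega) (fun j => ord_mul (hx j) (q6 j)) q7 (fun j => by
        show u j + w j ≤ x j + w j
        have := hux j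
        omega) (fun j => by
        show l j ≤ u j + w j + z j
        have h2 := hl j
        have h3 := q8 j
        omega) hgood' rfl
    have h2 : ∑ j, (u j + w j + z j - l j) = ∑ j, (u j + y j - l j) := by
      refine Finset.sum_congr rfl fun j _ => ?_
      have h3 := q8 j
      omega
    rw [h2]
    omega

/-- Vanishing: if `L = (N; l)` is nef and big and has a member, then `h¹ (K + L) = 0`. -/
theorem kv {s : ℕ} {P : Fin s → Fin 2 → ℂ}
    (hP : AlgebraicIndependent ℚ (fun ij : Fin s × Fin 2 => P ij.1 ij.2)) {N : ℕ} (hN : 1 ≤ N)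
    {l : Fin s → ℕ}
    (hnef : ∀ (g : MvPolynomial (Fin 3) ℂ) (c : ℕ) (w : Fin s → ℕ), g ≠ 0 → g.IsHomogeneous c →
      (∀ j, Ord (aff (P j)) (w j) g) → 0 ≤ ip N l c w) (hbig : 0 < ip N l N l)
    {f : MvPolynomial (Fin 3) ℂ} (hf : f ∈ VS (fun j => aff (P j)) l N) (hf0 : f ≠ 0)
    (hX : ¬ X 2 ∣ f) : Good P N l := by
  classical
  have hf' := (mem_VS _ _ _ _).1 hf
  -- an irreducible factor
  have hunit : ¬ IsUnit f := by
    intro hu
    obtain ⟨g, hg⟩ := hu.exists_right_inv
    have hg0 : g ≠ 0 := by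
      rintro rfl
      rw [mul_zero] at hg
      exact zero_ne_one hg
    have h3 := MvPolynomial.totalDegree_mul_of_isDomain hf0 hg0
    rw [hg, hf'.1.totalDegree hf0, MvPolynomial.totalDegree_one] at h3
    omega
  obtain ⟨G, hG, h, hh⟩ := WfDvdMonoid.exists_irreducible_factor hunit hf0
  have hh0 : h ≠ 0 := fun h0 => hf0 (by rw [hh, h0, mul_zero])
  have hGh := Pool.Agent.Chud.homog_of_dvd hf'.1 hf0 ⟨h, hh⟩
  have hhh := Pool.Agent.Chud.homog_of_dvd hf'.1 hf0 ⟨G, by rw [hh, mul_comm]⟩
  have hdeg : G.totalDegree + h.totalDegree = N := by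
    rw [← MvPolynomial.totalDegree_mul_of_isDomain hG.ne_zero hh0, ← hh, hf'.1.totalDegree hf0]
  choose x hx using fun i => K4H28.TC.exists_ord (a := P i) hG.ne_zero hGh
  choose y hy using fun i => K4H28.TC.exists_ord (a := P i) hh0 hhh
  have hinj := SH.inj_of_alg hP
  refine kv_aux hP hnef hbig _ G h _ _ x x y hG.ne_zero hh0 (fun hd => hX (by
    rw [hh]; exact hd.mul_left _)) hGh hhh hdeg (deg_pos hG hGh) hx hy (fun j => le_rfl) (fun j => ?_)
    (good_curve hG hGh (deg_pos hG hGh) hinj hx) rfl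
  have h1 : Van (aff (P j)) (l j) (G * h) := by
    rw [← hh]
    exact hf'.2 j
  by_contra hlt
  push Not at hlt
  exact (ord_mul (hx j) (hy j)).2 (van_mono hlt h1)

end Pool.Agent.H51.KV
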