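import Pool.Graph.R_seed8.TH167.DD.PrimeA

set_option autoImplicit false

/-!
# Restriction to an irreducible curve: duality
-/

namespace Pool.Agent.H51.KV

open MvPolynomial Pool.Agent.W609 Pool.Agent.W609.CR Pool.Agent.TH167 Pool.Agent.TH167.SH
open Pool.Agent.TH167.DD

/-- A point off a curve and off finitely many points. -/
theorem exists_off {K : Type} [Field K] [CharZero K] {s : ℕ} {G : MvPolynomial (Fin 3) K} {d : ℕ}
    (hGd : G.IsHomogeneous d) (hG0 : G ≠ 0) (P : Fin s → Fin 2 → K) :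
    ∃ p1 : Fin 2 → K, eval (aff p1) G ≠ 0 ∧ ∀ j, P j ≠ p1 := by
  obtain ⟨H, hH0, hHh, hHP⟩ : ∃ H : MvPolynomial (Fin 3) K, H ≠ 0 ∧
      H.IsHomogeneous H.totalDegree ∧ ∀ j, eval (aff (P j)) H = 0 := by
    refine ⟨∏ j, mf 0 (P j), Finset.prod_ne_zero_iff.2 fun j _ => mf_ne 0 _, ?_, fun j => ?_⟩
    · have h1 : (∏ j, mf 0 (P j)).IsHomogeneous (∑ j : Fin s, 1) :=
        IsHomogeneous.prod _ _ _ fun j _ => mf_hom 0 _
      have h2 := h1.totalDegree (Finset.prod_ne_zero_iff.2 fun j _ => mf_ne 0 _)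
      rwa [← h2] at h1
    · rw [map_prod]
      exact Finset.prod_eq_zero (Finset.mem_univ j) (by rw [eval_mf, sub_self])
  obtain ⟨p1, hp1⟩ := TT.exists_pt (hGd.mul hHh) (mul_ne_zero hG0 hH0)
  rw [map_mul] at hp1
  refine ⟨p1, left_ne_zero_of_mul hp1, fun j h => ?_⟩
  apply right_ne_zero_of_mul hp1
  rw [← h]
  exact hHP j

/-- The conditions of degree `n` on an irreducible curve `G` of degree `c`: the duality on `G`. The
hypothesis says that `M C > 2 p - 2`, or `M C = 2 p - 2` and `δ = 1`. -/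
theorem core {K : Type} [Field K] [CharZero K] [IsAlgClosed K] {s : ℕ}
    {G : MvPolynomial (Fin 3) K} {c : ℕ} (hG : Irreducible G) (hGc : G.IsHomogeneous c)
    (hc : 2 ≤ c) {P : Fin s → Fin 2 → K} (hP : Function.Injective P) {w : Fin s → ℕ}
    (hw : ∀ i, Ord (aff (P i)) (w i) G) (a : Fin s → ℕ) (n : ℕ) (δ : ℕ) (hδ : δ ≤ 1)
    (hdeg : (c : ℤ) * (c - 3) - ∑ j, (w j : ℤ) * (w j - 1) < n * c - ∑ j, (a j : ℤ) * w j + δ)
    (M : Submodule K (MvPolynomial (Fin 3) K)) [Module.Finite K ↥M]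
    (hM : ∀ f ∈ VS (fun j => aff (P j)) a n, G ∣ f → f ∈ M) :
    (Module.finrank K ↥(VS (fun j => aff (P j)) a n) : ℤ) ≤ Module.finrank K ↥M +
      (n * c - ∑ j, (a j : ℤ) * w j) + 1 -
        (((c - 1).choose 2 : ℕ) - ∑ j, ((w j).choose 2 : ℤ)) + δ := by
  classical
  have hG0 := hG.ne_zero
  obtain ⟨p1, hp1, hp1P⟩ := exists_off hGc hG0 P
  obtain ⟨N, hN⟩ : ∃ N, N = n + c + ∑ j, w j + 5 := ⟨_, rfl⟩
  let w' : Fin (s + 1) → ℕ := Fin.cons 0 w
  let r' : Fin (s + 1) → ℕ := Fin.cons N (fun j => a j + 1)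
  let P1 : Fin (s + 1) → Fin 2 → K := Fin.cons p1 P
  have hP1 : Function.Injective P1 := by
    rw [Fin.cons_injective_iff]
    refine ⟨?_, hP⟩
    rintro ⟨j, hj⟩
    exact hp1P j hj
  have hw1 : ∀ i, Ord (aff (P1 i)) (w' i) G := by
    intro i
    refine Fin.cases ?_ (fun j => ?_) i
    · show Ord (aff p1) 0 G
      refine ⟨van_zero _ _, fun h => hp1 ?_⟩
      exact van_one'.1 h
    · exact hw j
  obtain ⟨Ls, Q, hC, hlen⟩ := exists_cfg hG hGc hc hP1 hw1 _ r' rfl
  obtain ⟨k, hk⟩ : ∃ k, k = Ls.length := ⟨_, rfl⟩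
  have hk2 : k = N + ∑ j, (a j + 1) := by
    rw [hk, hlen, Fin.sum_univ_succ]
    rfl
  have hcard : Q.card + ∑ j, w j * (a j + 1) = c * k := by
    have h1 := hC.card
    rw [Fin.sum_univ_succ, ← hk] at h1
    have h2 : w' 0 * r' 0 = 0 := by
      show 0 * N = 0
      rw [zero_mul]
    rw [h2, zero_add] at h1
    exact h1
  obtain ⟨b, hb⟩ : ∃ b, n + b + 3 = c + k := ⟨c + k - 3 - n, by omega⟩
  have hbc : c ≤ b := by omega
  let A := VS (fun j => aff (P j)) a n
  let B := VS (fun j => aff (P j)) w b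
  have hAf : Module.Finite K ↥A := vs_fin (fun j => aff (P j)) a n
  have hBf : Module.Finite K ↥B := vs_fin (fun j => aff (P j)) w b
  have hQP : ∀ j, P j ∉ Q := fun j => hC.disj j.succ
  have hdual := hC.dual hGc hG0 hw1 (a := n) (b := b) (by rw [← hk]; omega) A B
    (fun f hf => ((mem_VS _ _ _ _).1 hf).1) (fun f hf => ((mem_VS _ _ _ _).1 hf).1) (by
    intro f hf g hg i
    refine Fin.cases ?_ (fun j => ?_) i
    · intro h
      exact absurd rfl h
    · intro hj
      show Van (aff (P j)) (w j + (a j + 1) - 1) (f * g)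
      have h1 := van_mul (((mem_VS _ _ _ _).1 hf).2 j) (((mem_VS _ _ _ _).1 hg).2 j)
      have h2 : a j + w j = w j + (a j + 1) - 1 := by omega
      rwa [h2] at h1)
  have hdA := ev_dim Q A M (by
    intro f hf hfQ
    have hf' := (mem_VS _ _ _ _).1 hf
    refine hM f hf ?_
    by_contra hnd
    have hf0 : f ≠ 0 := fun h => hnd (by rw [h]; exact dvd_zero _)
    have h1 := bezQ hP hG hGc (fun j => (hw j).1) hf0 hf'.1 hf'.2 hnd hQP hC.zQ hfQ
    have h2 : ∑ j, w j * (a j + 1) = ∑ j, w j * a j + ∑ j, w j := by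
      rw [← Finset.sum_add_distrib]
      exact Finset.sum_congr rfl fun j _ => by ring
    have h3 : c * k = c * n + c * (c + ∑ j, w j + 5 + ∑ j, (a j + 1)) := by
      rw [hk2, hN]
      ring
    nlinarith [Nat.zero_le (∑ j, w j), Nat.zero_le (∑ j, (a j + 1))])
  -- the kernel on the dual side
  have hsq : ∑ j, (w j : ℤ) * (w j - 1) = ∑ j, (w j : ℤ) * w j - ∑ j, (w j : ℤ) := by
    rw [← Finset.sum_sub_distrib]
    exact Finset.sum_congr rfl fun j _ => by ring
  have hsa : ∑ j, (w j : ℤ) * (a j + 1) = ∑ j, (a j : ℤ) * w j + ∑ j, (w j : ℤ) := by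
    rw [← Finset.sum_add_distrib]
    exact Finset.sum_congr rfl fun j _ => by ring
  have hcard' : (Q.card : ℤ) + ∑ j, (w j : ℤ) * (a j + 1) = c * k := by exact_mod_cast hcard
  have hb' : (n : ℤ) + b + 3 = c + k := by exact_mod_cast hb
  have hkey : ∀ g ∈ B, (∀ q ∈ Q, eval (aff q) g = 0) → ¬ G ∣ g →
      ∀ Q' : Finset (Fin 2 → K), (∀ j, P j ∉ Q') → (∀ q ∈ Q', eval (aff q) G = 0) →
        (∀ q ∈ Q', eval (aff q) g = 0) → Q'.card < Q.card + δ + (1 - δ) := by
    intro g hg _ hnd Q' hPQ hQG hQg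
    have hg' := (mem_VS _ _ _ _).1 hg
    have hg0 : g ≠ 0 := fun h => hnd (by rw [h]; exact dvd_zero _)
    have h1 := bezQ hP hG hGc (fun j => (hw j).1) hg0 hg'.1 hg'.2 hnd hPQ hQG hQg
    have h2 : ∑ j, (w j : ℤ) * w j + Q'.card ≤ c * b := by exact_mod_cast h1
    have h3 : (Q'.card : ℤ) < Q.card + δ := by nlinarith
    have h4 : Q'.card < Q.card + δ := by exact_mod_cast h3
    omega
  have hM2 := mult_finite G (b - c)
  obtain ⟨B0, hB0f, hB0, hB0r⟩ : ∃ B0 : Submodule K (MvPolynomial (Fin 3) K),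
      Module.Finite K ↥B0 ∧ (∀ g ∈ B, (∀ q ∈ Q, eval (aff q) g = 0) → g ∈ B0) ∧
      Module.finrank K ↥B0 ≤ (b - c + 2).choose 2 + δ := by
    by_cases hall : ∀ g ∈ B, (∀ q ∈ Q, eval (aff q) g = 0) → G ∣ g
    · refine ⟨mult G (b - c), hM2, fun g hg hgQ => ?_, ?_⟩
      · exact mem_mult hGc hG0 ((mem_VS _ _ _ _).1 hg).1 (hall g hg hgQ) fun _ => by omega
      · rw [mult_finrank hG0]
        omega
    · push Not at hall
      obtain ⟨g0, hg0, hg0Q, hg0d⟩ := hall
      have hδ1 : δ = 1 := by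
        have h1 := hkey g0 hg0 hg0Q hg0d Q hQP hC.zQ hg0Q
        by_contra hne
        have h0 : δ = 0 := by omega
        have hg0' := (mem_VS _ _ _ _).1 hg0
        have hg00 : g0 ≠ 0 := fun h => hg0d (by rw [h]; exact dvd_zero _)
        have h1 := bezQ hP hG hGc (fun j => (hw j).1) hg00 hg0'.1 hg0'.2 hg0d hQP hC.zQ hg0Q
        have h2 : ∑ j, (w j : ℤ) * w j + Q.card ≤ c * b := by exact_mod_cast h1
        rw [h0] at hdeg
        push_cast at hdeg
        nlinarith
      obtain ⟨q, hq1, hq2⟩ := exists_point_on hG hGc hc ((mem_VS _ _ _ _).1 hg0).1 hg0d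
      have hqQ : q ∉ Q := fun h => hq2 (hg0Q q h)
      have hqP : ∀ j, P j ≠ q := by
        rintro j rfl
        rcases Nat.eq_zero_or_pos (w j) with h | h
        · have h1 := (hw j).2
          rw [h, zero_add] at h1
          exact h1 (van_one'.2 hq1)
        · exact hq2 (van_one'.1 (van_mono h (((mem_VS _ _ _ _).1 hg0).2 j)))
      refine ⟨mult G (b - c) ⊔ Submodule.span K {g0}, ?_, fun g hg hgQ => ?_, ?_⟩
      · infer_instance
      · -- a combination vanishes at `q`
        have h1 : G ∣ eval (aff q) g0 • g - eval (aff q) g • g0 := by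
          by_contra hnd
          have hmem : eval (aff q) g0 • g - eval (aff q) g • g0 ∈ B :=
            B.sub_mem (B.smul_mem _ hg) (B.smul_mem _ hg0)
          have hv : ∀ x ∈ Q, eval (aff x) (eval (aff q) g0 • g - eval (aff q) g • g0) = 0 := by
            intro x hx
            rw [map_sub, smul_eval, smul_eval, hgQ x hx, hg0Q x hx, mul_zero, mul_zero, sub_zero]
          have h2 := hkey _ hmem hv hnd (insert q Q) (fun j hj => by
            rcases Finset.mem_insert.1 hj with h | h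
            · exact hqP j h
            · exact hQP j h) (fun x hx => by
            rcases Finset.mem_insert.1 hx with h | h
            · rw [h]; exact hq1
            · exact hC.zQ x h) (fun x hx => by
            rcases Finset.mem_insert.1 hx with h | h
            · rw [h, map_sub, smul_eval, smul_eval]
              ring
            · exact hv x h)
          rw [Finset.card_insert_of_notMem hqQ] at h2
          omega
        have h2 : eval (aff q) g0 • g - eval (aff q) g • g0 ∈ mult G (b - c) := by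
          have h5 : (eval (aff q) g0 • g - eval (aff q) g • g0).IsHomogeneous b :=
            ((mem_VS _ _ _ _).1 (B.sub_mem (B.smul_mem _ hg) (B.smul_mem _ hg0))).1
          exact mem_mult hGc hG0 h5 h1 fun _ => by omega
        have h3 : eval (aff q) g0 • g ∈ mult G (b - c) ⊔ Submodule.span K {g0} := by
          have h4 : eval (aff q) g0 • g = (eval (aff q) g0 • g - eval (aff q) g • g0) +
              eval (aff q) g • g0 := by abel
          rw [h4]
          exact Submodule.add_mem_sup h2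
            (Submodule.smul_mem _ _ (Submodule.mem_span_singleton_self g0))
        have h4 := Submodule.smul_mem _ (eval (aff q) g0)⁻¹ h3
        rwa [smul_smul, inv_mul_cancel₀ hq2, one_smul] at h4
      · have h1 := Submodule.finrank_add_le_finrank_add_finrank (mult G (b - c))
          (Submodule.span K {g0})
        have h2 := finrank_span_singleton (K := K) (v := g0)
          (fun h => hg0d (by rw [h]; exact dvd_zero _))
        rw [mult_finrank hG0] at h1
        omega
  have hdB := ev_dim Q B B0 hB0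
  have hdim := le_dim w P b
  rw [← vs_eq_forms] at hdim
  have hdim' : (b + 2).choose 2 ≤ Module.finrank K ↥B + ∑ j, (w j + 1).choose 2 := hdim
  -- arithmetic
  obtain ⟨m, hm⟩ : ∃ m, b = c + m := ⟨b - c, by omega⟩
  have hm2 : b - c = m := by omega
  rw [hm2] at hB0r
  have c1 : 2 * (c + m + 2).choose 2 = (c + m + 1) * (c + m + 2) := H932R7.two_choose (c + m)
  have c2 : 2 * (m + 2).choose 2 = (m + 1) * (m + 2) := H932R7.two_choose m
  rw [hm] at hdim' hb'
  have c3 : (2 : ℤ) * ((c - 1).choose 2 : ℕ) = (c - 1) * (c - 2) := by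
    obtain ⟨c', hc'⟩ : ∃ c', c = c' + 2 := ⟨c - 2, by omega⟩
    subst hc'
    have e1 : (c' + 2 - 1).choose 2 = (c' + 1).choose 2 := by congr 1
    rw [e1]
    have e2 : (c' + 1).choose 2 * 2 = (c' + 1) * c' := by
      have := Nat.choose_two_right (c' + 1)
      rw [this, Nat.add_sub_cancel]
      exact Nat.div_mul_cancel ((by rw [mul_comm]; exact (Nat.even_mul_succ_self c').two_dvd))
    have e3 : (((c' + 1).choose 2 * 2 : ℕ) : ℤ) = (((c' + 1) * c' : ℕ) : ℤ) := by rw [e2]
    push_cast at e3 ⊢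
    linarith
  have hw2 : ∀ v : ℕ, (2 : ℤ) * (v.choose 2 : ℕ) = v * (v - 1) := by
    intro v
    rcases Nat.eq_zero_or_pos v with h | h
    · subst h
      simp
    · obtain ⟨v', rfl⟩ : ∃ v', v = v' + 1 := ⟨v - 1, by omega⟩
      have e2 : (v' + 1).choose 2 * 2 = (v' + 1) * v' := by
        have := Nat.choose_two_right (v' + 1)
        rw [this, Nat.add_sub_cancel]
        exact Nat.div_mul_cancel ((by rw [mul_comm]; exact (Nat.even_mul_succ_self v').two_dvd))
      have e3 : (((v' + 1).choose 2 * 2 : ℕ) : ℤ) = (((v' + 1) * v' : ℕ) : ℤ) := by rw [e2]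
      push_cast at e3 ⊢
      linarith
  have hs1 : (2 : ℤ) * ∑ j, ((w j).choose 2 : ℤ) = ∑ j, (w j : ℤ) * w j - ∑ j, (w j : ℤ) := by
    rw [← hsq, Finset.mul_sum]
    exact Finset.sum_congr rfl fun j _ => by exact_mod_cast hw2 (w j)
  have hs2 : (2 : ℤ) * ∑ j, ((w j + 1).choose 2 : ℤ) = ∑ j, (w j : ℤ) * w j + ∑ j, (w j : ℤ) := by
    rw [← Finset.sum_add_distrib, Finset.mul_sum]
    refine Finset.sum_congr rfl fun j _ => ?_
    have h1 := hw2 (w j + 1)
    push_cast at h1 ⊢
    linarith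
  have z1 : ((c + m + 2).choose 2 : ℤ) ≤ Module.finrank K ↥B + ∑ j, ((w j + 1).choose 2 : ℤ) := by
    exact_mod_cast hdim'
  have z2 : (Module.finrank K ↥B : ℤ) ≤ Module.finrank K ↥B0 +
      Module.finrank K ↥(B.map (ev Q)) := by exact_mod_cast hdB
  have z3 : (Module.finrank K ↥A : ℤ) ≤ Module.finrank K ↥M +
      Module.finrank K ↥(A.map (ev Q)) := by exact_mod_cast hdA
  have z4 : (Module.finrank K ↥(A.map (ev Q)) : ℤ) + Module.finrank K ↥(B.map (ev Q)) ≤
      Q.card := by exact_mod_cast hdual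
  have z5 : (Module.finrank K ↥B0 : ℤ) ≤ ((m + 2).choose 2 : ℕ) + δ := by exact_mod_cast hB0r
  have z6 : (2 : ℤ) * ((c + m + 2).choose 2 : ℕ) = (c + m + 1) * (c + m + 2) := by
    exact_mod_cast c1
  have z7 : (2 : ℤ) * ((m + 2).choose 2 : ℕ) = (m + 1) * (m + 2) := by exact_mod_cast c2
  show (Module.finrank K ↥A : ℤ) ≤ _
  push_cast at hb' z1
  have z8 : (n : ℤ) = k - m - 3 := by linarith
  rw [hsa] at hcard'
  have z9 : (c : ℤ) * n = c * k - c * m - 3 * c := by rw [z8]; ring
  nlinarith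

end Pool.Agent.H51.KV
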