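import Pool.Agent.H51.KV.Main

set_option autoImplicit false

/-!
# The dimension of the special systems
-/

namespace Pool.Agent.H51.KV

open MvPolynomial Module Pool.Agent.W609 Pool.Agent.W609.CR Pool.Agent.TH167 Pool.Agent.TH167.SH
open Pool.Agent.TH167.DD Pool.Agent.K4H28.SP

/-- Adding the class of the cubics through the nine points. -/
def plusT (m : ℕ → ℕ) : ℕ → ℕ := fun i => if i < 9 then m i + 1 else m i

theorem plusT_anti {m : ℕ → ℕ} (hm : Antitone m) : Antitone (plusT m) := by
  intro i j hij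
  have := hm hij
  unfold plusT
  split_ifs <;> omega

theorem cc_plusT (d : ℕ) (m : ℕ → ℕ) : cc (d + 3) (plusT m) = cc d m := by
  unfold cc plusT
  simp only [Finset.sum_range_succ, Finset.sum_range_zero, zero_add]
  norm_num
  ring

theorem qq_plusT (d : ℕ) (m : ℕ → ℕ) : qq (d + 3) (plusT m) = qq d m + 2 * cc d m := by
  unfold qq cc plusT
  simp only [Finset.sum_range_succ, Finset.sum_range_zero, zero_add]
  norm_num
  ring

theorem tl_plusT (s : ℕ) (m : ℕ → ℕ) : tl s (plusT m) = tl s m := by
  unfold tl plusT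
  refine Finset.sum_congr rfl fun i hi => ?_
  rw [if_neg (by have := (Finset.mem_Ico.1 hi).1; omega)]

theorem tq_plusT (s : ℕ) (m : ℕ → ℕ) : tq s (plusT m) = tq s m := by
  unfold tq plusT
  refine Finset.sum_congr rfl fun i hi => ?_
  rw [if_neg (by have := (Finset.mem_Ico.1 hi).1; omega)]

/-- The cubics through nine points. -/
theorem gd_le_plusT {s d : ℕ} (m : ℕ → ℕ) :
    gd (fun i : Fin s => m i) d ≤ gd (fun i : Fin s => plusT m i) (d + 3) := by
  classical
  obtain ⟨P, hP⟩ := exists_point s
  let n : Fin s → ℕ := fun i => if (i : ℕ) < 9 then 1 else 0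
  obtain ⟨g, hg, hg0⟩ : ∃ g ∈ VS (fun j => aff (P j)) n 3, g ≠ 0 := by
    refine Submodule.exists_mem_ne_zero_of_ne_bot fun h0 => ?_
    have h1 := chi_le_dim P 3 n
    rw [h0, finrank_bot, chi_cast] at h1
    have h2 : ∑ j : Fin s, (n j + 1).choose 2 ≤ 9 := by
      have h3 : ∑ j : Fin s, (n j + 1).choose 2 =
          (Finset.univ.filter fun i : Fin s => (i : ℕ) < 9).card := by
        rw [Finset.card_filter]
        refine Finset.sum_congr rfl fun j _ => ?_
        show ((if (j : ℕ) < 9 then 1 else 0) + 1).choose 2 = _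
        split_ifs <;> rfl
      rw [h3]
      have h4 : (Finset.univ.filter fun i : Fin s => (i : ℕ) < 9).card ≤
          (Finset.range 9).card := by
        refine Finset.card_le_card_of_injOn (fun i => (i : ℕ)) (fun i hi => ?_)
          (fun i _ j _ hij => Fin.ext hij)
        have := (Finset.mem_filter.1 hi).2
        simpa using this
      simpa using h4
    have h5 : (3 + 2).choose 2 = 10 := rfl
    rw [h5] at h1
    omega
  have hfin := vs_fin (fun j => aff (P j)) (fun i : Fin s => plusT m i) (d + 3)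
  have hle : (VS (fun j => aff (P j)) (fun i : Fin s => m i) d).map (LinearMap.mulLeft ℂ g) ≤
      VS (fun j => aff (P j)) (fun i : Fin s => plusT m i) (d + 3) := by
    rintro _ ⟨f, hf, rfl⟩
    have hf' := (mem_VS _ _ _ _).1 hf
    have hg' := (mem_VS _ _ _ _).1 hg
    rw [LinearMap.mulLeft_apply, mem_VS]
    refine ⟨?_, fun i => ?_⟩
    · have h1 := hg'.1.mul hf'.1
      rwa [add_comm] at h1
    · have h1 := van_mul (hg'.2 i) (hf'.2 i)
      refine van_mono ?_ h1
      show plusT m i ≤ (if (i : ℕ) < 9 then 1 else 0) + m i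
      unfold plusT
      split_ifs <;> omega
  have h1 := Submodule.finrank_mono hle
  rw [finrank_mulMap hg0, K4H51.PTM.vs_gd hP, K4H51.PTM.vs_gd hP] at h1
  exact h1

/-- Without simple points. -/
theorem two_chi_big {s d : ℕ} {m : ℕ → ℕ} (hm : Antitone m) (hs : 9 ≤ s) (h9 : 2 ≤ m 9) :
    2 * chi d (fun i : Fin s => big (m i)) = qq d m + cc d m + 2 - tq s m + tl s m := by
  rw [chi_cast]
  have e1 : ∑ j : Fin s, (big (m j) + 1).choose 2 = ∑ i ∈ Finset.range s, (big (m i) + 1).choose 2 := by
    rw [Finset.sum_range]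
  rw [e1]
  push_cast
  rw [← Finset.sum_range_add_sum_Ico _ hs]
  unfold qq cc tq tl
  have h1 := two_choose_int (d + 2)
  have h2 : (2 : ℤ) * ∑ i ∈ Finset.range 9, ((big (m i) + 1).choose 2 : ℤ) =
      ∑ i ∈ Finset.range 9, (m i : ℤ) ^ 2 + ∑ i ∈ Finset.range 9, (m i : ℤ) := by
    rw [Finset.mul_sum, ← Finset.sum_add_distrib]
    refine Finset.sum_congr rfl fun i hi => ?_
    have h4 : 2 ≤ m i := le_trans h9 (hm (by have := Finset.mem_range.1 hi; omega))
    have h5 : big (m i) = m i := by unfold big; rw [if_pos h4]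
    rw [h5]
    have h3 := two_choose_int (m i + 1)
    push_cast at h3
    linarith
  have h3 : (2 : ℤ) * ∑ i ∈ Finset.Ico 9 s, ((big (m i) + 1).choose 2 : ℤ) =
      ∑ i ∈ Finset.Ico 9 s, (up (m i) : ℤ) ^ 2 - ∑ i ∈ Finset.Ico 9 s, (up (m i) : ℤ) := by
    rw [Finset.mul_sum, ← Finset.sum_sub_distrib]
    refine Finset.sum_congr rfl fun i _ => ?_
    have h3 := two_choose_int (big (m i) + 1)
    unfold up
    unfold big at h3 ⊢
    split_ifs at h3 ⊢ with h
    · push_cast at h3 ⊢
      linarith
    · push_cast at h3 ⊢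
      linarith
  push_cast at h1
  linarith

theorem big_anti {m : ℕ → ℕ} (hm : Antitone m) : Antitone fun i => big (m i) := by
  intro i j hij
  have := hm hij
  show big (m j) ≤ big (m i)
  unfold big
  split_ifs <;> omega

theorem up_big (a : ℕ) : up (big a) = up a := by
  unfold up big
  split_ifs <;> omega

/-- **The dimension of the special systems.** -/
theorem dim_bound {s : ℕ} (hs : 10 ≤ s) : ∀ (n d : ℕ) (m : ℕ → ℕ), Antitone m →
    m 0 + m 1 + m 2 ≤ d → 2 ≤ m 9 → (∀ i, m i ≠ 1) → 1 ≤ cc d m →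
    1 ≤ gd (fun i : Fin s => m i) d →
    (tq s m + tl s m + ((m 9 : ℤ) + 1) ^ 2 - qq d m ≤ n) →
    K4H51.PTM.h1 d (fun i : Fin s => m i) ≤ 0 ∨ (gd (fun i : Fin s => m i) d : ℤ) ≤ tl s m ∨
      14 * (gd (fun i : Fin s => m i) d : ℤ) < 7 * (tl s m + cc d m) + 14 + ((m 9 : ℤ) + 1) ^ 2 := by
  classical
  intro n
  induction n using Nat.strong_induction_on with
  | _ n ih =>
  intro d m hm hd h9 h1m hc hne hn
  by_cases hreg : tq s m + tl s m ≤ qq d m + 3 * cc d m ∧
      7 * tq s m + ((m 9 : ℤ) + 1) ^ 2 ≤ 7 * (qq d m + 2 * cc d m)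
  · left
    exact crit hm hd hs h9 hreg.1 hreg.2 hne
  right
  have e9 : plusT m 9 = m 9 := by
    unfold plusT
    rw [if_neg (by omega)]
  have hle := gd_le_plusT (s := s) (d := d) m
  have htl0 : 0 ≤ tl s m := Finset.sum_nonneg fun i _ => by positivity
  have hn1 : 1 ≤ n := by
    by_contra hcon
    have hn0 : n = 0 := by omega
    rw [hn0] at hn
    push_cast at hn
    apply hreg
    have : (0 : ℤ) ≤ ((m 9 : ℤ) + 1) ^ 2 := by positivity
    constructor
    · linarith
    · linarith
  have h3 := ih (n - 1) (by omega) (d + 3) (plusT m) (plusT_anti hm) (by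
      show plusT m 0 + plusT m 1 + plusT m 2 ≤ d + 3
      have a0 : plusT m 0 = m 0 + 1 := rfl
      have a1 : plusT m 1 = m 1 + 1 := rfl
      have a2 : plusT m 2 = m 2 + 1 := rfl
      omega) (by rw [e9]; exact h9) (fun i => by
      have := h1m i
      have h4 : 2 ≤ m i ∨ 9 ≤ i := by
        by_cases h5 : 9 ≤ i
        · exact Or.inr h5
        · left
          exact le_trans h9 (hm (by omega))
      unfold plusT
      split_ifs with h5 <;> omega) (by rw [cc_plusT]; exact hc) (le_trans hne hle) (by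
      rw [tq_plusT, tl_plusT, e9, qq_plusT]
      push_cast [Nat.cast_sub hn1]
      linarith)
  rw [tl_plusT, cc_plusT, e9] at h3
  have hle' : (gd (fun i : Fin s => m i) d : ℤ) ≤ gd (fun i : Fin s => plusT m i) (d + 3) := by
    exact_mod_cast hle
  rcases h3 with h3 | h3 | h3
  · -- the dimension of the larger system is the expected one
    have hbm : (fun i : Fin s => big (plusT m i)) = fun i : Fin s => plusT m i := by
      funext i
      have h4 := h1m i
      have h6 : 2 ≤ m i ∨ 9 ≤ (i : ℕ) := by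
        by_cases h5 : 9 ≤ (i : ℕ)
        · exact Or.inr h5
        · left
          exact le_trans h9 (hm (by omega))
      unfold big plusT
      split_ifs <;> omega
    have h4 := two_chi_big (d := d + 3) (plusT_anti hm) (show 9 ≤ s by omega)
      (by rw [e9]; exact h9)
    rw [hbm, qq_plusT, cc_plusT, tq_plusT, tl_plusT] at h4
    unfold K4H51.PTM.h1 at h3
    have h5 : 2 * (gd (fun i : Fin s => m i) d : ℤ) ≤ qq d m + 3 * cc d m + 2 - tq s m + tl s m := by
      linarith
    by_cases h6 : tq s m + tl s m ≤ qq d m + 3 * cc d m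
    · right
      have h7 : ¬ (7 * tq s m + ((m 9 : ℤ) + 1) ^ 2 ≤ 7 * (qq d m + 2 * cc d m)) :=
        fun h7 => hreg ⟨h6, h7⟩
      push Not at h7
      linarith
    · left
      push Not at h6
      omega
  · left
    exact le_trans hle' h3
  · right
    linarith

/-- The dimension of the special systems, with simple points. -/
theorem dim_special {s d : ℕ} {m : ℕ → ℕ} (hm : Antitone m) (hd : m 0 + m 1 + m 2 ≤ d)
    (hs : 10 ≤ s) (h9 : 2 ≤ m 9) (hne : 1 ≤ gd (fun i : Fin s => m i) d)
    (hsp : 0 < K4H51.PTM.h1 d (fun i : Fin s => m i)) :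
    (gd (fun i : Fin s => m i) d : ℤ) ≤ tl s m ∨
      14 * (gd (fun i : Fin s => m i) d : ℤ) < 7 * (tl s m + cc d m) + 14 + ((m 9 : ℤ) + 1) ^ 2 := by
  have hc := cc_pos hm hd hs (by omega) hne
  have hb : ∀ i, i < 10 → big (m i) = m i := by
    intro i hi
    have h4 : 2 ≤ m i := le_trans h9 (hm (by omega))
    unfold big
    rw [if_pos h4]
  have hle : gd (fun i : Fin s => m i) d ≤ gd (fun i : Fin s => big (m i)) d := by
    refine gd_anti fun i => ?_
    unfold big
    split_ifs <;> omega
  have hh := h1_big (fun i : Fin s => m i) hne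
  have ecc : cc d (fun i => big (m i)) = cc d m := by
    unfold cc
    congr 1
    refine Finset.sum_congr rfl fun i hi => ?_
    show ((big (m i) : ℕ) : ℤ) = m i
    rw [hb i (by have := Finset.mem_range.1 hi; omega)]
  have etl : tl s (fun i => big (m i)) = tl s m := by
    unfold tl
    exact Finset.sum_congr rfl fun i _ => by rw [up_big]
  have h1 := dim_bound hs ((tq s (fun i => big (m i)) + tl s (fun i => big (m i)) +
    ((big (m 9) : ℤ) + 1) ^ 2 - qq d (fun i => big (m i))).toNat) d (fun i => big (m i))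
    (big_anti hm) (by
      show big (m 0) + big (m 1) + big (m 2) ≤ d
      rw [hb 0 (by omega), hb 1 (by omega), hb 2 (by omega)]
      exact hd) (by
      show 2 ≤ big (m 9)
      rw [hb 9 (by omega)]
      exact h9) (fun i => by
      show big (m i) ≠ 1
      unfold big
      split_ifs <;> omega) (by rw [ecc]; exact hc) (le_trans hne hle) (Int.self_le_toNat _)
  rw [ecc, etl] at h1
  have h2 : ((fun i => big (m i)) 9 : ℕ) = m 9 := hb 9 (by omega)
  have hle' : (gd (fun i : Fin s => m i) d : ℤ) ≤ gd (fun i : Fin s => big (m i)) d := by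
    exact_mod_cast hle
  rcases h1 with h1 | h1 | h1
  · linarith
  · left
    linarith
  · right
    simp only [hb 9 (show 9 < 10 by omega)] at h1
    linarith

end Pool.Agent.H51.KV
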