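import Pool.Agent.H51.KV.Dim
import Pool.Graph.R_pool_sql_team_seeded_c8625f6e.K4H51.PTM.Main

set_option autoImplicit false

/-!
# The bounds for generic dimensions
-/

namespace Pool.Agent.H51.KV

open MvPolynomial Module Pool.Agent.W609 Pool.Agent.W609.CR Pool.Agent.TH167 Pool.Agent.TH167.SH
open Pool.Agent.TH167.DD Pool.Agent.K4H28.SP

/-- The tenth multiplicity of a special class is at least two. -/
theorem two_le_gd {s d : ℕ} {m : ℕ → ℕ} (hm : Antitone m) (hd : m 0 + m 1 + m 2 ≤ d)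
    (hne : 1 ≤ gd (fun i : Fin s => m i) d)
    (hsp : 0 < K4H51.PTM.h1 d (fun i : Fin s => m i)) : 2 ≤ m 9 := by
  classical
  have h3 := three' hm hd
  have hred : Red3 d (fun i : Fin s => m i) := by
    refine ⟨fun i => ?_, fun i j hij => ?_, fun i j k hij hik hjk => ?_⟩
    · have e0 := hm (Nat.zero_le (i : ℕ))
      change m i ≤ d
      omega
    · have h4 : (i : ℕ) ≠ (j : ℕ) := fun h => hij (Fin.ext h)
      obtain ⟨k, hk1, hk2⟩ : ∃ k : ℕ, (i : ℕ) ≠ k ∧ (j : ℕ) ≠ k :=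
        ⟨(i : ℕ) + (j : ℕ) + 1, by omega, by omega⟩
      have := h3 i j k h4 hk1 hk2
      change m i + m j ≤ d
      omega
    · exact h3 i j k (fun h => hij (Fin.ext h)) (fun h => hik (Fin.ext h))
        (fun h => hjk (Fin.ext h))
  obtain ⟨y, hy, hTB⟩ := SB.gd_trade_red (m := fun i : Fin s => m i) (d := d) hred
    (T := Finset.univ.filter fun i : Fin s => (i : ℕ) < 9) (by
      have e : ∑ i ∈ Finset.univ.filter (fun i : Fin s => (i : ℕ) < 9), m i =
          ∑ x ∈ (Finset.univ.filter (fun i : Fin s => (i : ℕ) < 9)).map Fin.valEmbedding, m x := by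
        rw [Finset.sum_map]
        rfl
      have e9 : ∑ i ∈ Finset.range 9, m i ≤ 3 * d := by
        simp only [Finset.sum_range_succ, Finset.sum_range_zero, zero_add]
        have e3 := hm (show 0 ≤ 3 by omega)
        have e4 := hm (show 1 ≤ 4 by omega)
        have e5 := hm (show 2 ≤ 5 by omega)
        have e6 := hm (show 0 ≤ 6 by omega)
        have e7 := hm (show 1 ≤ 7 by omega)
        have e8 := hm (show 2 ≤ 8 by omega)
        omega
      refine le_trans ?_ e9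
      rw [e]
      refine Finset.sum_le_sum_of_subset fun x hx => ?_
      rw [Finset.mem_map] at hx
      obtain ⟨i, hi, rfl⟩ := hx
      exact Finset.mem_range.2 (Finset.mem_filter.1 hi).2)
    (A := m 0) (b := m 9) (fun j _ => hm (Nat.zero_le _)) (fun j hj => by
      refine hm ?_
      by_contra hcon
      exact hj (Finset.mem_filter.2 ⟨Finset.mem_univ _, by omega⟩))
    (hm (Nat.zero_le 9)) hne
  rcases hTB with h4 | ⟨h4, -⟩
  · unfold K4H51.PTM.h1 at hsp
    rw [chi_cast] at hsp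
    omega
  · exact h4

/-- The Euler characteristic and the numbers `q`, `c`, `S`, `T`. -/
theorem two_chi_le {s d : ℕ} (hs : 9 ≤ s) (m : ℕ → ℕ) :
    2 * chi d (fun i : Fin s => m i) ≤ qq d m + cc d m + 2 - tq s m + tl s m := by
  rw [chi_cast]
  have e1 : ∑ j : Fin s, (m j + 1).choose 2 = ∑ i ∈ Finset.range s, (m i + 1).choose 2 := by
    rw [Finset.sum_range]
  rw [e1]
  push_cast
  unfold qq cc tq tl
  rw [← Finset.sum_range_add_sum_Ico _ hs]
  have h1 := two_choose_int (d + 2)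
  have h2 : (2 : ℤ) * ∑ i ∈ Finset.range 9, ((m i + 1).choose 2 : ℤ) =
      ∑ i ∈ Finset.range 9, (m i : ℤ) ^ 2 + ∑ i ∈ Finset.range 9, (m i : ℤ) := by
    rw [Finset.mul_sum, ← Finset.sum_add_distrib]
    refine Finset.sum_congr rfl fun i _ => ?_
    have h3 := two_choose_int (m i + 1)
    push_cast at h3
    linarith
  have h3 : ∑ i ∈ Finset.Ico 9 s, (up (m i) : ℤ) ^ 2 - ∑ i ∈ Finset.Ico 9 s, (up (m i) : ℤ) ≤
      (2 : ℤ) * ∑ i ∈ Finset.Ico 9 s, ((m i + 1).choose 2 : ℤ) := by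
    rw [Finset.mul_sum, ← Finset.sum_sub_distrib]
    refine Finset.sum_le_sum fun i _ => ?_
    have h3 := two_choose_int (m i + 1)
    unfold up
    split_ifs with h
    · push_cast at h3 ⊢
      nlinarith
    · push_cast
      positivity
  push_cast at h1
  linarith

/-- **All the bounds.** -/
theorem full {s d : ℕ} {m : ℕ → ℕ} (hm : Antitone m) (hz : ∀ i, s ≤ i → m i = 0)
    (hd : m 0 + m 1 + m 2 ≤ d) (hne : 1 ≤ gd (fun i : Fin s => m i) d)
    (hsp : 0 < K4H51.PTM.h1 d (fun i : Fin s => m i)) :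
    2 ≤ m 9 ∧
    (chi d (fun i : Fin s => m i) ≤ tl s m - cc d m ∨
      14 * chi d (fun i : Fin s => m i) < 7 * (tl s m - cc d m) + 14 + ((m 9 : ℤ) + 1) ^ 2) ∧
    ((gd (fun i : Fin s => m i) d : ℤ) ≤ tl s m ∨
      14 * (gd (fun i : Fin s => m i) d : ℤ) < 7 * (tl s m + cc d m) + 14 + ((m 9 : ℤ) + 1) ^ 2) ∧
    1 ≤ cc d m ∧ 7 * cc d m < 4 * tl s m ∧ 3 * ((m 8 : ℤ) + 1) * cc d m < 2 * tq s m ∧
    (d : ℤ) < 2 * tq s m := by
  have h9 := two_le_gd hm hd hne hsp
  have hs : 10 ≤ s := by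
    by_contra hcon
    have := hz 9 (by omega)
    omega
  obtain ⟨hc, hor⟩ := bounds hm hd hs h9 hne hsp
  obtain ⟨t1, t2⟩ := tail_num (s := s) (m := m) hs h9
  have hv := two_chi_le (d := d) (show 9 ≤ s by omega) m
  have hTm : tq s m ≤ ((m 9 : ℤ) + 1) * tl s m ∧ (m 9 : ℤ) + 1 ≤ tl s m := by
    constructor
    · unfold tq tl
      rw [Finset.mul_sum]
      refine Finset.sum_le_sum fun i hi => ?_
      have h3 : up (m i) ≤ m 9 + 1 := by
        have := hm (Finset.mem_Ico.1 hi).1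
        unfold up
        split_ifs <;> omega
      have h4 : (up (m i) : ℤ) ≤ (m 9 : ℤ) + 1 := by exact_mod_cast h3
      rw [pow_two]
      exact mul_le_mul_of_nonneg_right h4 (by positivity)
    · unfold tl
      have h3 := Finset.single_le_sum (f := fun i => (up (m i) : ℤ)) (s := Finset.Ico 9 s)
        (fun i _ => by positivity) (Finset.mem_Ico.2 ⟨le_rfl, by omega⟩ : 9 ∈ Finset.Ico 9 s)
      have h4 : (up (m 9) : ℤ) = (m 9 : ℤ) + 1 := by
        unfold up
        rw [if_pos h9]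
        push_cast
        ring
      rw [h4] at h3
      exact h3
  have hm98 : (m 9 : ℤ) ≤ m 8 := by exact_mod_cast hm (show 8 ≤ 9 by omega)
  have hb2 : (2 : ℤ) ≤ m 9 := by exact_mod_cast h9
  refine ⟨h9, ?_, dim_special hm hd hs h9 hne hsp, hc, ?_, ?_, ?_⟩
  · rcases hor with ⟨h3, -, -⟩ | ⟨h3, -, -⟩
    · left
      omega
    · right
      linarith
  · rcases hor with ⟨-, h3, -⟩ | ⟨-, h3, -⟩
    · by_contra hcon
      push Not at hcon
      have h4 : (2 * (m 9 : ℤ) + 3) * cc d m ≤ (2 * (m 8 : ℤ) + 3) * cc d m :=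
        mul_le_mul_of_nonneg_right (by linarith) (by linarith)
      have h5 : (2 * (m 9 : ℤ) + 3) * (4 * tl s m) ≤ (2 * (m 9 : ℤ) + 3) * (7 * cc d m) :=
        mul_le_mul_of_nonneg_left hcon (by linarith)
      nlinarith [hTm.1, hTm.2]
    · by_contra hcon
      push Not at hcon
      have h4 : ((m 9 : ℤ) + 1) * cc d m ≤ ((m 8 : ℤ) + 1) * cc d m :=
        mul_le_mul_of_nonneg_right (by linarith) (by linarith)
      have h5 : ((m 9 : ℤ) + 1) * (4 * tl s m) ≤ ((m 9 : ℤ) + 1) * (7 * cc d m) :=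
        mul_le_mul_of_nonneg_left hcon (by linarith)
      nlinarith [hTm.1, hTm.2]
  · rcases hor with ⟨-, h3, -⟩ | ⟨-, h3, -⟩
    · nlinarith
    · nlinarith
  · rcases hor with ⟨-, -, h3⟩ | ⟨-, -, h3⟩
    · linarith
    · linarith

theorem up_mono {a b : ℕ} (h : a ≤ b) : up a ≤ up b := by
  unfold up
  split_ifs <;> omega

theorem tl_mono {s : ℕ} {m n : ℕ → ℕ} (h : ∀ i, m i ≤ n i) : tl s m ≤ tl s n := by
  unfold tl
  refine Finset.sum_le_sum fun i _ => ?_
  exact_mod_cast up_mono (h i)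

end Pool.Agent.H51.KV
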