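import Pool.Agent.H51.KV.Sq

set_option autoImplicit false

/-!
# Multiplicities without large gaps
-/

namespace Pool.Agent.H51.KV

open MvPolynomial Module Pool.Agent.W609 Pool.Agent.W609.CR Pool.Agent.TH167 Pool.Agent.TH167.SH
open Pool.Agent.TH167.DD Pool.Agent.K4H28.SP Pool.Agent.K4H28.TC

/-- Every `m i + 1` with `m i ≥ 2` after the ninth is at most `g`, or some other `m j ≥ 2` after the
ninth is smaller than `m i` but at least half of it. -/
def Gap (s : ℕ) (m : ℕ → ℕ) (g : ℕ) : Prop :=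
  ∀ i, 9 ≤ i → i < s → 2 ≤ m i →
    m i + 1 ≤ g ∨ ∃ j, 9 ≤ j ∧ j < s ∧ 2 ≤ m j ∧ m j < m i ∧ m i ≤ 2 * m j

theorem Gap.three {s : ℕ} {m : ℕ → ℕ} {g : ℕ} (h : Gap s m g) : ∀ (n i : ℕ), m i = n → 9 ≤ i →
    i < s → 2 ≤ m i → 3 ≤ g := by
  intro n
  induction n using Nat.strong_induction_on with
  | _ n ih =>
    intro i hn h9 hs h2
    rcases h i h9 hs h2 with h3 | ⟨j, j1, j2, j3, j4, -⟩
    · omega
    · exact ih (m j) (by omega) j rfl j1 j2 j3

/-- A standard class `(N; l)` of large self-intersection is nef. -/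
theorem nef_of2 {r : ℕ} {P : Fin (r + 4) → Fin 2 → ℂ}
    (hP : AlgebraicIndependent ℚ (fun ij : Fin (r + 4) × Fin 2 => P ij.1 ij.2)) {N : ℕ}
    {l : Fin (r + 4) → ℕ} (hstd : ∀ i j k, i ≠ j → i ≠ k → j ≠ k → l i + l j + l k ≤ N)
    {T : Finset (Fin (r + 4))} (hT : T.card ≤ 9) (hpos : 0 ≤ ip N l N l)
    (hD : ∀ i, i ∉ T → (l i : ℤ) ^ 2 ≤ 7 * ip N l N l ∨ ∃ j, j ∉ T ∧ l j < l i ∧ l i ≤ 2 * l j)
    (g : MvPolynomial (Fin 3) ℂ) (c : ℕ) (w : Fin (r + 4) → ℕ) (hg0 : g ≠ 0)
    (hg : g.IsHomogeneous c) (hw : ∀ j, Ord (aff (P j)) (w j) g) : 0 ≤ ip N l c w := by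
  classical
  have hx0 : ∀ i, (0 : ℝ) ≤ (l i : ℝ) := fun i => Nat.cast_nonneg _
  have hsq : ((N : ℝ)) ^ 2 - ∑ i, (l i : ℝ) ^ 2 = ((ip N l N l : ℤ) : ℝ) := by
    unfold ip
    push_cast
    rw [pow_two]
    congr 1
    exact Finset.sum_congr rfl fun i _ => by ring
  have h1 := form_of_irr (p := P) (x := fun i => (l i : ℝ)) (c := (N : ℝ)) hx0 (by
    intro G e u h1 h2 h3
    by_cases hne : ip e u e u = -1 ∧ kk e u = 1
    · refine std_nonneg hx0 (fun i j k hij hik hjk => ?_) (fun i => van_le h1.ne_zero h2 (h3 i).1) ?_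
      · exact_mod_cast hstd i j k hij hik hjk
      · have h4 := hne.2
        unfold kk at h4
        have h5 : (∑ i, u i : ℕ) ≤ ((3 * e : ℕ) : ℤ) := by push_cast; linarith
        exact_mod_cast h5
    · refine coreA hP (Nat.cast_nonneg _) hx0 hT ?_ ?_ (u := u) (e := e) ⟨⟨G, h1, h2, h3⟩, hne⟩
      · rw [hsq]
        exact_mod_cast hpos
      · intro i hi
        rcases hD i hi with h4 | ⟨j, j1, j2, j3⟩
        · left
          rw [hsq]
          exact_mod_cast h4
        · right
          have h5 : (l j : ℝ) ^ 2 ≤ below T (fun i => (l i : ℝ)) i := by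
            unfold below
            have h6 := Finset.single_le_sum (f := fun k => if k ∉ T ∧ (l k : ℝ) < (l i : ℝ) then
              (l k : ℝ) ^ 2 else 0) (s := Finset.univ) (fun k _ => by
                split_ifs
                · positivity
                · exact le_rfl) (Finset.mem_univ j)
            have h7 : (l j : ℝ) < (l i : ℝ) := by exact_mod_cast j2
            simp only [if_pos (And.intro j1 h7)] at h6
            exact h6
          have h6 : (l i : ℝ) ≤ 2 * (l j : ℝ) := by exact_mod_cast j3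
          have h7 : (l i : ℝ) ^ 2 ≤ (2 * (l j : ℝ)) ^ 2 :=
            pow_le_pow_left₀ (Nat.cast_nonneg _) h6 2
          have h8 : (0 : ℝ) ≤ (N : ℝ) ^ 2 - ∑ i, (l i : ℝ) ^ 2 := by
            rw [hsq]
            exact_mod_cast hpos
          nlinarith) g hg0 c w hg fun i => (hw i).1
  unfold ip
  have h2 : (∑ i, (l i : ℝ) * (w i : ℝ)) = ((∑ i, (l i : ℤ) * (w i : ℤ) : ℤ) : ℝ) := by
    push_cast
    rfl
  rw [h2] at h1
  have h3 : (∑ i, (l i : ℤ) * (w i : ℤ)) ≤ (N : ℤ) * c := by exact_mod_cast h1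
  linarith

/-- The criterion: if `χ (D - K) ≥ 1`, `D - K` is standard and `7 (D - K) ^ 2` is at least the square
of the tenth multiplicity, then `h¹ (D) = 0`. -/
theorem criterion2 {r : ℕ} {P : Fin (r + 4) → Fin 2 → ℂ}
    (hP : AlgebraicIndependent ℚ (fun ij : Fin (r + 4) × Fin 2 => P ij.1 ij.2)) {N : ℕ}
    (hN : 1 ≤ N)
    {l : Fin (r + 4) → ℕ} (hstd : ∀ i j k, i ≠ j → i ≠ k → j ≠ k → l i + l j + l k ≤ N)
    {T : Finset (Fin (r + 4))} (hT : T.card ≤ 9) (hpos : 0 < ip N l N l)
    (hD : ∀ i, i ∉ T → (l i : ℤ) ^ 2 ≤ 7 * ip N l N l ∨ ∃ j, j ∉ T ∧ l j < l i ∧ l i ≤ 2 * l j) (hchi : 1 ≤ chi N l) : Good P N l := by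
  have h1 : 1 ≤ finrank ℂ ↥(VS (fun j => aff (P j)) l N) := by
    have h2 := chi_le_dim P N l
    have h3 : (1 : ℤ) ≤ finrank ℂ ↥(VS (fun j => aff (P j)) l N) := le_trans hchi h2
    exact_mod_cast h3
  obtain ⟨f, hf, hf0, hX⟩ := exists_member h1
  exact kv hP hN (nef_of2 hP hstd hT hpos.le hD) hpos hf hf0 hX

/-- **The criterion.** -/
theorem crit2 {s d : ℕ} {m : ℕ → ℕ} (hm : Antitone m) (hd : m 0 + m 1 + m 2 ≤ d) (hs : 10 ≤ s)
    (h9 : 2 ≤ m 9) (h1 : tq s m + tl s m ≤ qq d m + 3 * cc d m)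
    {g : ℕ} (hg : Gap s m g) (h2 : 7 * tq s m + (g : ℤ) ^ 2 ≤ 7 * (qq d m + 2 * cc d m))
    (hne : 1 ≤ gd (fun i : Fin s => m i) d) : K4H51.PTM.h1 d (fun i : Fin s => m i) ≤ 0 := by
  classical
  obtain ⟨r, rfl⟩ : ∃ r, s = r + 4 := ⟨s - 4, by omega⟩
  obtain ⟨P, hP⟩ := exists_point (r + 4)
  have hbig : ∀ i, i < 9 → 2 ≤ m i := fun i hi => le_trans h9 (hm (by omega))
  -- the sums
  have hsplit : ∀ f : ℕ → ℤ, ∑ i : Fin (r + 4), f i =
      ∑ i ∈ Finset.range 9, f i + ∑ i ∈ Finset.Ico 9 (r + 4), f i := by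
    intro f
    rw [Finset.sum_range_add_sum_Ico _ (by omega), Finset.sum_range]
  have hfirst : ∑ i ∈ Finset.range 9, (up (m i) : ℤ) = ∑ i ∈ Finset.range 9, (m i : ℤ) + 9 := by
    have h3 : ∑ i ∈ Finset.range 9, (up (m i) : ℤ) = ∑ i ∈ Finset.range 9, ((m i : ℤ) + 1) := by
      refine Finset.sum_congr rfl fun i hi => ?_
      unfold up
      rw [if_pos (hbig i (Finset.mem_range.1 hi))]
      push_cast
      ring
    rw [h3, Finset.sum_add_distrib]
    simp
  have hfirst2 : ∑ i ∈ Finset.range 9, (up (m i) : ℤ) ^ 2 =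
      ∑ i ∈ Finset.range 9, (m i : ℤ) ^ 2 + 2 * ∑ i ∈ Finset.range 9, (m i : ℤ) + 9 := by
    have h3 : ∑ i ∈ Finset.range 9, (up (m i) : ℤ) ^ 2 =
        ∑ i ∈ Finset.range 9, ((m i : ℤ) ^ 2 + 2 * (m i : ℤ) + 1) := by
      refine Finset.sum_congr rfl fun i hi => ?_
      unfold up
      rw [if_pos (hbig i (Finset.mem_range.1 hi))]
      push_cast
      ring
    rw [h3, Finset.sum_add_distrib, Finset.sum_add_distrib, Finset.mul_sum]
    simp
  have hip : ip (d + 3) (fun i : Fin (r + 4) => up (m i)) (d + 3) (fun i => up (m i)) =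
      qq d m + 2 * cc d m - tq (r + 4) m := by
    unfold ip
    have h3 : ∑ i : Fin (r + 4), (up (m i) : ℤ) * (up (m i) : ℤ) =
        ∑ i : Fin (r + 4), (up (m i) : ℤ) ^ 2 :=
      Finset.sum_congr rfl fun i _ => by ring
    rw [h3, hsplit fun i => (up (m i) : ℤ) ^ 2, hfirst2]
    unfold qq cc tq
    push_cast
    ring
  have hkk : kk (d + 3) (fun i : Fin (r + 4) => up (m i)) = cc d m - tl (r + 4) m := by
    unfold kk
    rw [hsplit fun i => (up (m i) : ℤ), hfirst]
    unfold cc tl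
    push_cast
    ring
  have hg3 : (3 : ℤ) ≤ g := by exact_mod_cast hg.three _ 9 rfl le_rfl (by omega) h9
  have hpos9 : (0 : ℤ) < (g : ℤ) ^ 2 := by positivity
  have hgood := criterion2 hP (N := d + 3) (by omega) (l := fun i => up (m i))
    (T := Finset.univ.filter fun i : Fin (r + 4) => (i : ℕ) < 9) (by
      intro i j k hij hik hjk
      have h3 := three' hm hd i j k (fun h => hij (Fin.ext h)) (fun h => hik (Fin.ext h))
        (fun h => hjk (Fin.ext h))
      have h4 : ∀ a, up a ≤ a + 1 := by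
        intro a
        unfold up
        split_ifs <;> omega
      have h5 := h4 (m i)
      have h6 := h4 (m j)
      have h7 := h4 (m k)
      show up (m i) + up (m j) + up (m k) ≤ d + 3
      omega) (by
      have h3 : (Finset.univ.filter fun i : Fin (r + 4) => (i : ℕ) < 9).card ≤
          (Finset.range 9).card := by
        refine Finset.card_le_card_of_injOn (fun i => (i : ℕ)) (fun i hi => ?_)
          (fun i _ j _ hij => Fin.ext hij)
        have := (Finset.mem_filter.1 hi).2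
        simpa using this
      simpa using h3) (by
      rw [hip]
      nlinarith) (by
      intro i hi
      have h3 : 9 ≤ (i : ℕ) := by
        by_contra hlt
        exact hi (Finset.mem_filter.2 ⟨Finset.mem_univ _, by omega⟩)
      by_cases h4 : 2 ≤ m i
      · have hup : up (m i) = m i + 1 := by
          unfold up
          rw [if_pos h4]
        rcases hg i h3 i.2 h4 with h5 | ⟨j, j1, j2, j3, j4, j5⟩
        · left
          have h5' : (up (m i) : ℤ) ≤ g := by
            rw [hup]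
            exact_mod_cast h5
          have h6 : (up (m i) : ℤ) ^ 2 ≤ (g : ℤ) ^ 2 :=
            pow_le_pow_left₀ (by positivity) h5' 2
          show (up (m i) : ℤ) ^ 2 ≤ _
          rw [hip]
          linarith
        · right
          refine ⟨⟨j, j2⟩, fun h => ?_, ?_⟩
          · have := (Finset.mem_filter.1 h).2
            have h7 : j < 9 := this
            omega
          · have hupj : up (m j) = m j + 1 := by
              unfold up
              rw [if_pos j3]
            show up (m j) < up (m i) ∧ up (m i) ≤ 2 * up (m j)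
            rw [hup, hupj]
            omega
      · left
        have hup : up (m i) = 0 := by
          unfold up
          rw [if_neg h4]
        show (up (m i) : ℤ) ^ 2 ≤ _
        rw [hup, hip]
        push_cast
        nlinarith) (by
      have h3 := two_chi (d + 3) (fun i : Fin (r + 4) => up (m i))
      rw [hip, hkk] at h3
      omega)
  unfold Good at hgood
  have h3 : hK P (d + 3) (fun i => up (m i)) = gd (fun i : Fin (r + 4) => big (m i)) d := by
    unfold hK
    rw [if_pos (by omega), Nat.add_sub_cancel, K4H51.PTM.vs_gd hP]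
    congr 1
    funext i
    exact up_pred _
  rw [h3, pa_eq_chi (by omega), Nat.add_sub_cancel] at hgood
  have h4 : (fun j : Fin (r + 4) => up (m j) - 1) = fun i : Fin (r + 4) => big (m i) := by
    funext i
    exact up_pred _
  rw [h4] at hgood
  refine le_trans (h1_big _ hne) ?_
  unfold K4H51.PTM.h1
  linarith

theorem gap_plusT {s g : ℕ} {m : ℕ → ℕ} (h : Gap s m g) : Gap s (plusT m) g := by
  have e : ∀ i, 9 ≤ i → plusT m i = m i := fun i hi => by
    unfold plusT
    rw [if_neg (by omega)]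
  intro i h9 hs h2
  rw [e i h9] at h2 ⊢
  rcases h i h9 hs h2 with h3 | ⟨j, j1, j2, j3, j4, j5⟩
  · exact Or.inl h3
  · refine Or.inr ⟨j, j1, j2, ?_⟩
    rw [e j j1]
    exact ⟨j3, j4, j5⟩

theorem gap_big {s g : ℕ} {m : ℕ → ℕ} (h : Gap s m g) : Gap s (fun i => big (m i)) g := by
  intro i h9 hs h2
  have h2' : 2 ≤ big (m i) := h2
  have h3 : big (m i) = m i := by
    unfold big at h2' ⊢
    split_ifs at h2' ⊢ <;> omega
  show big (m i) + 1 ≤ g ∨ _
  rw [h3] at h2' ⊢
  rcases h i h9 hs h2' with h4 | ⟨j, j1, j2, j3, j4, j5⟩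
  · exact Or.inl h4
  · refine Or.inr ⟨j, j1, j2, ?_⟩
    have h5 : big (m j) = m j := by
      unfold big
      rw [if_pos j3]
    show 2 ≤ big (m j) ∧ big (m j) < big (m i) ∧ big (m i) ≤ 2 * big (m j)
    rw [h5, h3]
    exact ⟨j3, j4, j5⟩

/-- **The dimension of the special systems.** -/
theorem dim_bound2 {s g : ℕ} (hs : 10 ≤ s) : ∀ (n d : ℕ) (m : ℕ → ℕ), Gap s m g → Antitone m →
    m 0 + m 1 + m 2 ≤ d → 2 ≤ m 9 → (∀ i, m i ≠ 1) → 1 ≤ cc d m →
    1 ≤ gd (fun i : Fin s => m i) d →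
    (tq s m + tl s m + (g : ℤ) ^ 2 - qq d m ≤ n) →
    K4H51.PTM.h1 d (fun i : Fin s => m i) ≤ 0 ∨ (gd (fun i : Fin s => m i) d : ℤ) ≤ tl s m ∨
      14 * (gd (fun i : Fin s => m i) d : ℤ) < 7 * (tl s m + cc d m) + 14 + (g : ℤ) ^ 2 := by
  classical
  intro n
  induction n using Nat.strong_induction_on with
  | _ n ih =>
  intro d m hg hm hd h9 h1m hc hne hn
  by_cases hreg : tq s m + tl s m ≤ qq d m + 3 * cc d m ∧
      7 * tq s m + (g : ℤ) ^ 2 ≤ 7 * (qq d m + 2 * cc d m)
  · left
    exact crit2 hm hd hs h9 hreg.1 hg hreg.2 hne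
  right
  have e9 : plusT m 9 = m 9 := by
    unfold plusT
    rw [if_neg (by omega)]
  have hle := gd_le_plusT (s := s) (d := d) m
  have htl0 : 0 ≤ tl s m := Finset.sum_nonneg fun i _ => by positivity
  have hn1 : 1 ≤ n := by
    by_contra hcon
    have hn0 : n = 0 := by omega
    rw [hn0] at hn
    push_cast at hn
    apply hreg
    have : (0 : ℤ) ≤ (g : ℤ) ^ 2 := by positivity
    constructor
    · linarith
    · linarith
  have h3 := ih (n - 1) (by omega) (d + 3) (plusT m) (gap_plusT hg) (plusT_anti hm) (by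
      show plusT m 0 + plusT m 1 + plusT m 2 ≤ d + 3
      have a0 : plusT m 0 = m 0 + 1 := rfl
      have a1 : plusT m 1 = m 1 + 1 := rfl
      have a2 : plusT m 2 = m 2 + 1 := rfl
      omega) (by rw [e9]; exact h9) (fun i => by
      have := h1m i
      have h4 : 2 ≤ m i ∨ 9 ≤ i := by
        by_cases h5 : 9 ≤ i
        · exact Or.inr h5
        · left
          exact le_trans h9 (hm (by omega))
      unfold plusT
      split_ifs with h5 <;> omega) (by rw [cc_plusT]; exact hc) (le_trans hne hle) (by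
      rw [tq_plusT, tl_plusT, qq_plusT]
      push_cast [Nat.cast_sub hn1]
      linarith)
  rw [tl_plusT, cc_plusT] at h3
  have hle' : (gd (fun i : Fin s => m i) d : ℤ) ≤ gd (fun i : Fin s => plusT m i) (d + 3) := by
    exact_mod_cast hle
  rcases h3 with h3 | h3 | h3
  · -- the dimension of the larger system is the expected one
    have hbm : (fun i : Fin s => big (plusT m i)) = fun i : Fin s => plusT m i := by
      funext i
      have h4 := h1m i
      have h6 : 2 ≤ m i ∨ 9 ≤ (i : ℕ) := by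
        by_cases h5 : 9 ≤ (i : ℕ)
        · exact Or.inr h5
        · left
          exact le_trans h9 (hm (by omega))
      unfold big plusT
      split_ifs <;> omega
    have h4 := two_chi_big (d := d + 3) (plusT_anti hm) (show 9 ≤ s by omega)
      (by rw [e9]; exact h9)
    rw [hbm, qq_plusT, cc_plusT, tq_plusT, tl_plusT] at h4
    unfold K4H51.PTM.h1 at h3
    have h5 : 2 * (gd (fun i : Fin s => m i) d : ℤ) ≤ qq d m + 3 * cc d m + 2 - tq s m + tl s m := by
      linarith
    by_cases h6 : tq s m + tl s m ≤ qq d m + 3 * cc d m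
    · right
      have h7 : ¬ (7 * tq s m + (g : ℤ) ^ 2 ≤ 7 * (qq d m + 2 * cc d m)) :=
        fun h7 => hreg ⟨h6, h7⟩
      push Not at h7
      linarith
    · left
      push Not at h6
      omega
  · left
    exact le_trans hle' h3
  · right
    linarith

/-- The dimension of the special systems, with simple points. -/
theorem dim_special2 {s d g : ℕ} {m : ℕ → ℕ} (hg : Gap s m g) (hm : Antitone m) (hd : m 0 + m 1 + m 2 ≤ d)
    (hs : 10 ≤ s) (h9 : 2 ≤ m 9) (hne : 1 ≤ gd (fun i : Fin s => m i) d)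
    (hsp : 0 < K4H51.PTM.h1 d (fun i : Fin s => m i)) :
    (gd (fun i : Fin s => m i) d : ℤ) ≤ tl s m ∨
      14 * (gd (fun i : Fin s => m i) d : ℤ) < 7 * (tl s m + cc d m) + 14 + (g : ℤ) ^ 2 := by
  have hc := cc_pos hm hd hs (by omega) hne
  have hb : ∀ i, i < 10 → big (m i) = m i := by
    intro i hi
    have h4 : 2 ≤ m i := le_trans h9 (hm (by omega))
    unfold big
    rw [if_pos h4]
  have hle : gd (fun i : Fin s => m i) d ≤ gd (fun i : Fin s => big (m i)) d := by
    refine gd_anti fun i => ?_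
    unfold big
    split_ifs <;> omega
  have hh := h1_big (fun i : Fin s => m i) hne
  have ecc : cc d (fun i => big (m i)) = cc d m := by
    unfold cc
    congr 1
    refine Finset.sum_congr rfl fun i hi => ?_
    show ((big (m i) : ℕ) : ℤ) = m i
    rw [hb i (by have := Finset.mem_range.1 hi; omega)]
  have etl : tl s (fun i => big (m i)) = tl s m := by
    unfold tl
    exact Finset.sum_congr rfl fun i _ => by rw [up_big]
  have h1 := dim_bound2 hs ((tq s (fun i => big (m i)) + tl s (fun i => big (m i)) +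
    (g : ℤ) ^ 2 - qq d (fun i => big (m i))).toNat) d (fun i => big (m i))
    (gap_big hg) (big_anti hm) (by
      show big (m 0) + big (m 1) + big (m 2) ≤ d
      rw [hb 0 (by omega), hb 1 (by omega), hb 2 (by omega)]
      exact hd) (by
      show 2 ≤ big (m 9)
      rw [hb 9 (by omega)]
      exact h9) (fun i => by
      show big (m i) ≠ 1
      unfold big
      split_ifs <;> omega) (by rw [ecc]; exact hc) (le_trans hne hle) (Int.self_le_toNat _)
  rw [ecc, etl] at h1
  have hle' : (gd (fun i : Fin s => m i) d : ℤ) ≤ gd (fun i : Fin s => big (m i)) d := by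
    exact_mod_cast hle
  rcases h1 with h1 | h1 | h1
  · linarith
  · left
    linarith
  · right
    linarith

/-- The Euler characteristic of the special systems. -/
theorem chi_special2 {s d g : ℕ} {m : ℕ → ℕ} (hg : Gap s m g) (hm : Antitone m)
    (hd : m 0 + m 1 + m 2 ≤ d) (hs : 10 ≤ s) (h9 : 2 ≤ m 9)
    (hne : 1 ≤ gd (fun i : Fin s => m i) d)
    (hsp : 0 < K4H51.PTM.h1 d (fun i : Fin s => m i)) :
    chi d (fun i : Fin s => m i) ≤ tl s m - cc d m ∨
      14 * chi d (fun i : Fin s => m i) < 7 * (tl s m - cc d m) + 14 + (g : ℤ) ^ 2 := by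
  have hv := two_chi_le (d := d) (show 9 ≤ s by omega) m
  by_cases h1 : tq s m + tl s m ≤ qq d m + 3 * cc d m
  · right
    have h2 : ¬ (7 * tq s m + (g : ℤ) ^ 2 ≤ 7 * (qq d m + 2 * cc d m)) := by
      intro h2
      have := crit2 hm hd hs h9 h1 hg h2 hne
      omega
    push Not at h2
    linarith
  · left
    push Not at h1
    omega

/-- A nonempty standard system: `D ^ 2 > - m₁₀ ^ 2 / 7`. -/
theorem sq_lower2 {s d : ℕ} {m : ℕ → ℕ} (hm : Antitone m) (hd : m 0 + m 1 + m 2 ≤ d) (hs : 10 ≤ s)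
    {g : ℕ} (hg : Gap s m g) (h1m : ∀ i, m i ≠ 1) (h9 : 2 ≤ m 9) (hne : 1 ≤ gd (fun i : Fin s => m i) d) :
    7 * (∑ i : Fin s, (m i : ℤ) ^ 2 - (d : ℤ) ^ 2) < (g : ℤ) ^ 2 := by
  classical
  obtain ⟨r, rfl⟩ : ∃ r, s = r + 4 := ⟨s - 4, by omega⟩
  obtain ⟨P, hP⟩ := exists_point (r + 4)
  by_contra hcon
  push Not at hcon
  obtain ⟨x, hx⟩ : ∃ x : ℤ, x = ∑ i : Fin (r + 4), (m i : ℤ) ^ 2 - (d : ℤ) ^ 2 := ⟨_, rfl⟩
  rw [← hx] at hcon
  have hg3 : (3 : ℤ) ≤ g := by exact_mod_cast hg.three _ 9 rfl le_rfl (by omega) h9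
  have hx1 : 1 ≤ x := by
    by_contra h
    nlinarith
  have hd1 : 1 ≤ d := by
    have := hm (show 0 ≤ 9 by omega)
    omega
  obtain ⟨X, hX⟩ : ∃ X : ℕ, (X : ℤ) = x := ⟨x.toNat, Int.toNat_of_nonneg (by omega)⟩
  have hX1 : 1 ≤ X := by omega
  obtain ⟨k, hk⟩ : ∃ k : ℕ, k = 2 * d ^ 2 + 2 := ⟨_, rfl⟩
  obtain ⟨n, hn⟩ : ∃ n : ℕ, n = d * k := ⟨_, rfl⟩
  have hXk : 1 ≤ X * k := Nat.mul_pos hX1 (by omega)
  obtain ⟨j, hj⟩ : ∃ j : ℕ, j + 1 = X * k := ⟨X * k - 1, by omega⟩
  have hjz : (j : ℤ) = x * k - 1 := by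
    have h1 : ((j + 1 : ℕ) : ℤ) = ((X * k : ℕ) : ℤ) := by rw [hj]
    push_cast at h1
    rw [hX] at h1
    linarith
  have hnz : (n : ℤ) = d * k := by rw [hn]; push_cast; ring
  have hkz : (k : ℤ) = 2 * (d : ℤ) ^ 2 + 2 := by rw [hk]; push_cast; ring
  -- a member
  rw [← K4H51.PTM.vs_gd hP] at hne
  obtain ⟨f, hf, hf0⟩ : ∃ f ∈ VS (fun j => aff (P j)) (fun i : Fin (r + 4) => m i) d, f ≠ 0 := by
    refine Submodule.exists_mem_ne_zero_of_ne_bot fun h0 => ?_
    rw [h0, finrank_bot] at hne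
    omega
  rw [mem_VS] at hf
  choose w' hw' using fun i => K4H28.TC.exists_ord (a := P i) hf0 hf.1
  have hle : ∀ i : Fin (r + 4), m i ≤ w' i := by
    intro i
    by_contra hlt
    push Not at hlt
    exact (hw' i).2 (van_mono (by omega) (hf.2 i))
  have hip : ip (n * d + j) (fun i : Fin (r + 4) => n * m i) (n * d + j) (fun i => n * m i) =
      -(n : ℤ) ^ 2 * x + 2 * n * j * d + (j : ℤ) ^ 2 := by
    unfold ip
    have h3 : ∑ i : Fin (r + 4), ((n * m i : ℕ) : ℤ) * ((n * m i : ℕ) : ℤ) =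
        (n : ℤ) ^ 2 * ∑ i : Fin (r + 4), (m i : ℤ) ^ 2 := by
      rw [Finset.mul_sum]
      refine Finset.sum_congr rfl fun i _ => ?_
      push_cast
      ring
    have h4 : ∑ i : Fin (r + 4), (m i : ℤ) ^ 2 = x + (d : ℤ) ^ 2 := by rw [hx]; ring
    rw [h3, h4]
    push_cast
    ring
  have hval : (n : ℤ) ^ 2 * x ≤ -(n : ℤ) ^ 2 * x + 2 * n * j * d + (j : ℤ) ^ 2 := by
    rw [hjz, hnz]
    have hk0 : (0 : ℤ) ≤ k := by positivity
    have hxk : (k : ℤ) ≤ x * k := by nlinarith
    have h5 : ((k : ℤ) - 1) ^ 2 ≤ (x * k - 1) ^ 2 := by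
      have h6 : (0 : ℤ) ≤ (k : ℤ) - 1 := by rw [hkz]; nlinarith [sq_nonneg (d : ℤ)]
      exact pow_le_pow_left₀ h6 (by linarith) 2
    have h7 : 2 * (d : ℤ) ^ 2 * k ≤ ((k : ℤ) - 1) ^ 2 := by
      rw [hkz]
      nlinarith [sq_nonneg (d : ℤ)]
    nlinarith
  have hn1 : 1 ≤ n := by
    rw [hn]
    exact Nat.mul_pos hd1 (by omega)
  have hnef := nef_of2 hP (N := n * d + j) (l := fun i : Fin (r + 4) => n * m i) (by
      intro a b c hab hac hbc
      have h3 := three' hm hd a b c (fun h => hab (Fin.ext h)) (fun h => hac (Fin.ext h))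
        (fun h => hbc (Fin.ext h))
      have h4 := Nat.mul_le_mul_left n h3
      show n * m a + n * m b + n * m c ≤ n * d + j
      have h5 : n * (m a + m b + m c) = n * m a + n * m b + n * m c := by ring
      omega)
    (T := Finset.univ.filter fun i : Fin (r + 4) => (i : ℕ) < 9) (by
      have h3 : (Finset.univ.filter fun i : Fin (r + 4) => (i : ℕ) < 9).card ≤
          (Finset.range 9).card := by
        refine Finset.card_le_card_of_injOn (fun i => (i : ℕ)) (fun i hi => ?_)
          (fun i _ j _ hij => Fin.ext hij)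
        have := (Finset.mem_filter.1 hi).2
        simpa using this
      simpa using h3) (by
      rw [hip]
      have : 0 ≤ (n : ℤ) ^ 2 * x := by positivity
      linarith) (by
      intro i hi
      have h3 : 9 ≤ (i : ℕ) := by
        by_contra hlt
        exact hi (Finset.mem_filter.2 ⟨Finset.mem_univ _, by omega⟩)
      have key : (m i : ℤ) ^ 2 ≤ 7 * x → ((n * m i : ℕ) : ℤ) ^ 2 ≤
          7 * ip (n * d + j) (fun i : Fin (r + 4) => n * m i) (n * d + j) (fun i => n * m i) := by
        intro h6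
        have h7 : (n : ℤ) ^ 2 * (m i : ℤ) ^ 2 ≤ (n : ℤ) ^ 2 * (7 * x) :=
          mul_le_mul_of_nonneg_left h6 (by positivity)
        rw [hip]
        push_cast
        nlinarith
      by_cases h4 : 2 ≤ m i
      · rcases hg i h3 i.2 h4 with h5 | ⟨j', j1, j2, j3, j4, j5⟩
        · left
          refine key ?_
          have h5' : (m i : ℤ) ≤ g := by
            have : m i ≤ g := by omega
            exact_mod_cast this
          have h6 : (m i : ℤ) ^ 2 ≤ (g : ℤ) ^ 2 := pow_le_pow_left₀ (by positivity) h5' 2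
          linarith
        · right
          refine ⟨⟨j', j2⟩, fun h => ?_, ?_⟩
          · have := (Finset.mem_filter.1 h).2
            have h7 : j' < 9 := this
            omega
          · show n * m j' < n * m i ∧ n * m i ≤ 2 * (n * m j')
            constructor
            · exact Nat.mul_lt_mul_of_pos_left j4 hn1
            · calc n * m i ≤ n * (2 * m j') := Nat.mul_le_mul_left n j5
                _ = 2 * (n * m j') := by ring
      · left
        refine key ?_
        have h5 : m i = 0 := by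
          have := h1m i
          omega
        rw [h5]
        push_cast
        nlinarith) f d w' hf0 hf.1 hw'
  unfold ip at hnef
  have h8 : (n : ℤ) * ∑ i : Fin (r + 4), (m i : ℤ) ^ 2 ≤
      ∑ i : Fin (r + 4), ((n * m i : ℕ) : ℤ) * (w' i : ℤ) := by
    rw [Finset.mul_sum]
    refine Finset.sum_le_sum fun i _ => ?_
    have h9' : (m i : ℤ) ≤ w' i := by exact_mod_cast hle i
    push_cast
    have h10 : (0 : ℤ) ≤ (n : ℤ) * m i := by positivity
    calc (n : ℤ) * (m i : ℤ) ^ 2 = (n : ℤ) * m i * m i := by ring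
      _ ≤ (n : ℤ) * m i * w' i := mul_le_mul_of_nonneg_left h9' h10
  have h4 : ∑ i : Fin (r + 4), (m i : ℤ) ^ 2 = x + (d : ℤ) ^ 2 := by rw [hx]; ring
  rw [h4] at h8
  have h10 : (0 : ℤ) ≤ ((n * d + j : ℕ) : ℤ) * (d : ℤ) - (n : ℤ) * (x + (d : ℤ) ^ 2) :=
    le_trans hnef (by linarith)
  have h11 : (n : ℤ) * x ≤ j * d := by
    push_cast at h10
    linarith
  rw [hjz, hnz] at h11
  have hdz : (1 : ℤ) ≤ d := by exact_mod_cast hd1
  linarith

/-- **The superabundance.** -/
theorem h1_bound2 {s d g : ℕ} {m : ℕ → ℕ} (hg : Gap s m g) (hm : Antitone m) (hz : ∀ i, s ≤ i → m i = 0)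
    (hd : m 0 + m 1 + m 2 ≤ d) (hne : 1 ≤ gd (fun i : Fin s => m i) d)
    (hsp : 0 < K4H51.PTM.h1 d (fun i : Fin s => m i)) :
    14 * K4H51.PTM.h1 d (fun i : Fin s => m i) < 21 * tl s m + 2 * (g : ℤ) ^ 2 := by
  classical
  have h9 := two_le_gd hm hd hne hsp
  have hs : 10 ≤ s := by
    by_contra hcon
    have := hz 9 (by omega)
    omega
  have hb : ∀ i, i < 10 → big (m i) = m i := by
    intro i hi
    have h4 : 2 ≤ m i := le_trans h9 (hm (by omega))
    unfold big
    rw [if_pos h4]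
  have hle : gd (fun i : Fin s => m i) d ≤ gd (fun i : Fin s => big (m i)) d := by
    refine gd_anti fun i => ?_
    unfold big
    split_ifs <;> omega
  have hh := h1_big (fun i : Fin s => m i) hne
  have ecc : cc d (fun i => big (m i)) = cc d m := by
    unfold cc
    congr 1
    refine Finset.sum_congr rfl fun i hi => ?_
    show ((big (m i) : ℕ) : ℤ) = m i
    rw [hb i (by have := Finset.mem_range.1 hi; omega)]
  have etl : tl s (fun i => big (m i)) = tl s m := by
    unfold tl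
    exact Finset.sum_congr rfl fun i _ => by rw [up_big]
  have hdb : big (m 0) + big (m 1) + big (m 2) ≤ d := by
    rw [hb 0 (by omega), hb 1 (by omega), hb 2 (by omega)]
    exact hd
  have hneb := le_trans hne hle
  have h9b : 2 ≤ big (m 9) := by
    rw [hb 9 (by omega)]
    exact h9
  have k3 := dim_special2 (m := fun i => big (m i)) (gap_big hg) (big_anti hm) hdb hs h9b hneb
    (lt_of_lt_of_le hsp hh)
  have k4 := cc_pos hm hd hs (by omega) hne
  rw [ecc, etl] at k3
  have hsq := sq_lower2 (m := fun i => big (m i)) (big_anti hm) hdb hs (gap_big hg) (fun i => by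
    show big (m i) ≠ 1
    unfold big
    split_ifs <;> omega) h9b hneb
  have hchi := two_chi d (fun i : Fin s => big (m i))
  have hip : ip d (fun i : Fin s => big (m i)) d (fun i => big (m i)) =
      (d : ℤ) ^ 2 - ∑ i : Fin s, (big (m i) : ℤ) ^ 2 := by
    unfold ip
    have h3 : ∑ i : Fin s, (big (m i) : ℤ) * (big (m i) : ℤ) = ∑ i : Fin s, (big (m i) : ℤ) ^ 2 :=
      Finset.sum_congr rfl fun i _ => by ring
    rw [h3]
    ring
  have hkk : cc d m - tl s m ≤ kk d (fun i : Fin s => big (m i)) := by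
    unfold kk
    have hsplit : ∑ i : Fin s, (big (m i) : ℤ) =
        ∑ i ∈ Finset.range 9, (big (m i) : ℤ) + ∑ i ∈ Finset.Ico 9 s, (big (m i) : ℤ) := by
      rw [Finset.sum_range_add_sum_Ico _ (by omega), Finset.sum_range]
    rw [hsplit]
    have h3 : ∑ i ∈ Finset.Ico 9 s, (big (m i) : ℤ) ≤ tl s m := by
      unfold tl
      refine Finset.sum_le_sum fun i _ => ?_
      have : big (m i) ≤ up (m i) := by
        unfold big up
        split_ifs <;> omega
      exact_mod_cast this
    have h4 : ∑ i ∈ Finset.range 9, (big (m i) : ℤ) = ∑ i ∈ Finset.range 9, (m i : ℤ) := by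
      refine Finset.sum_congr rfl fun i hi => ?_
      rw [hb i (by have := Finset.mem_range.1 hi; omega)]
    rw [h4]
    unfold cc
    linarith
  rw [hip] at hchi
  have hb2 : (2 : ℤ) ≤ m 9 := by exact_mod_cast h9
  have hT0 : 0 ≤ tl s m := by
    unfold tl
    exact Finset.sum_nonneg fun i _ => by positivity
  unfold K4H51.PTM.h1 at hh ⊢
  rcases k3 with k3 | k3
  · nlinarith
  · nlinarith

end Pool.Agent.H51.KV
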