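import Pool.Agent.H51.KV.Nef
import Pool.Agent.H51.SB.Gd

set_option autoImplicit false

/-!
# Special systems are bounded in terms of the multiplicities after the ninth
-/

namespace Pool.Agent.H51.KV

open MvPolynomial Module Pool.Agent.W609 Pool.Agent.W609.CR Pool.Agent.TH167 Pool.Agent.TH167.SH
open Pool.Agent.TH167.DD Pool.Agent.K4H28.SP

/-- One more than a multiplicity `≥ 2`. -/
def up (a : ℕ) : ℕ := if 2 ≤ a then a + 1 else 0

/-- The multiplicities `≥ 2`. -/
def big (a : ℕ) : ℕ := if 2 ≤ a then a else 0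

theorem up_pred (a : ℕ) : up a - 1 = big a := by
  unfold up big
  split_ifs <;> omega

theorem exists_point (n : ℕ) : ∃ P : Fin n → Fin 2 → ℂ,
    AlgebraicIndependent ℚ (fun ij : Fin n × Fin 2 => P ij.1 ij.2) := by
  obtain ⟨ι, v, hv⟩ := exists_isTranscendenceBasis' ℚ ℂ
  have hC : Cardinal.aleph0 < Cardinal.mk ℂ := by
    rw [Cardinal.mk_complex]
    exact Cardinal.aleph0_lt_continuum
  have h1 := IsAlgClosed.cardinal_eq_cardinal_transcendence_basis_of_aleph0_lt' v hv
    (Cardinal.mk_le_aleph0) hC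
  have h2 : Cardinal.mk (Fin n × Fin 2) ≤ Cardinal.mk ι := by
    rw [← h1]
    exact (Cardinal.mk_le_aleph0_iff.2 inferInstance).trans hC.le
  obtain ⟨f⟩ := h2
  exact ⟨fun i j => (v ∘ f) (i, j), hv.1.comp f f.injective⟩

/-- More conditions. -/
theorem gd_anti {s d : ℕ} {w m : Fin s → ℕ} (h : ∀ i, w i ≤ m i) : gd m d ≤ gd w d := by
  obtain ⟨P, hP⟩ := exists_point s
  have hfin := vs_fin (fun j => aff (P j)) w d
  rw [← K4H51.PTM.vs_gd hP m d, ← K4H51.PTM.vs_gd hP w d]
  refine Submodule.finrank_mono fun f hf => ?_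
  rw [mem_VS] at hf ⊢
  exact ⟨hf.1, fun i => van_mono (h i) (hf.2 i)⟩

/-- Simple points impose independent conditions. -/
theorem h1_big {s d : ℕ} (m : Fin s → ℕ) (hne : 1 ≤ gd m d) :
    K4H51.PTM.h1 d m ≤ K4H51.PTM.h1 d (fun i => big (m i)) := by
  classical
  have key : ∀ S : Finset (Fin s), K4H51.PTM.h1 d m ≤
      K4H51.PTM.h1 d (fun i => if i ∈ S then big (m i) else m i) := by
    intro S
    induction S using Finset.induction_on with
    | empty =>
      refine le_of_eq ?_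
      congr 1
    | insert a S ha ih =>
      have hcur : 1 ≤ gd (fun i => if i ∈ S then big (m i) else m i) d := by
        refine le_trans hne (gd_anti fun i => ?_)
        unfold big
        split_ifs <;> omega
      by_cases h1 : m a = 1
      · have h2 := K4H51.PTM.h1_le_update (d := d) (fun i => if i ∈ S then big (m i) else m i) a hcur
        have h3 : (if a ∈ S then big (m a) else m a) = 1 := by
          rw [if_neg ha, h1]
        rw [h3] at h2
        have h4 : (1 : ℕ).choose 2 = 0 := rfl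
        rw [h4] at h2
        have h5 : Function.update (fun i => if i ∈ S then big (m i) else m i) a 0 =
            fun i => if i ∈ insert a S then big (m i) else m i := by
          funext i
          by_cases hi : i = a
          · subst hi
            rw [Function.update_self, if_pos (Finset.mem_insert_self _ _), h1]
            rfl
          · rw [Function.update_of_ne hi]
            by_cases h6 : i ∈ S
            · rw [if_pos h6, if_pos (Finset.mem_insert_of_mem h6)]
            · rw [if_neg h6, if_neg]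
              intro h7
              rcases Finset.mem_insert.1 h7 with h8 | h8
              · exact hi h8
              · exact h6 h8
        rw [h5] at h2
        push_cast at h2
        linarith
      · have h5 : (fun i => if i ∈ S then big (m i) else m i) =
            fun i => if i ∈ insert a S then big (m i) else m i := by
          funext i
          by_cases hi : i = a
          · subst hi
            rw [if_neg ha, if_pos (Finset.mem_insert_self _ _)]
            unfold big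
            split_ifs <;> omega
          · by_cases h6 : i ∈ S
            · rw [if_pos h6, if_pos (Finset.mem_insert_of_mem h6)]
            · rw [if_neg h6, if_neg]
              intro h7
              rcases Finset.mem_insert.1 h7 with h8 | h8
              · exact hi h8
              · exact h6 h8
        rw [← h5]
        exact ih
  have h1 := key Finset.univ
  simpa using h1

/-- `3 d` minus the sum of the nine largest multiplicities. -/
def cc (d : ℕ) (m : ℕ → ℕ) : ℤ := 3 * (d : ℤ) - ∑ i ∈ Finset.range 9, (m i : ℤ)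

/-- `d ^ 2` minus the sum of the squares of the nine largest multiplicities. -/
def qq (d : ℕ) (m : ℕ → ℕ) : ℤ := (d : ℤ) ^ 2 - ∑ i ∈ Finset.range 9, (m i : ℤ) ^ 2

/-- The sum of the numbers `m i + 1` over the multiplicities after the ninth which are `≥ 2`. -/
def tl (s : ℕ) (m : ℕ → ℕ) : ℤ := ∑ i ∈ Finset.Ico 9 s, (up (m i) : ℤ)

/-- The sum of their squares. -/
def tq (s : ℕ) (m : ℕ → ℕ) : ℤ := ∑ i ∈ Finset.Ico 9 s, (up (m i) : ℤ) ^ 2

theorem three' {m : ℕ → ℕ} {d : ℕ} (hm : Antitone m) (hd : m 0 + m 1 + m 2 ≤ d) :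
    ∀ i j k : ℕ, i ≠ j → i ≠ k → j ≠ k → m i + m j + m k ≤ d := by
  have key : ∀ i j k : ℕ, i < j → j < k → m i + m j + m k ≤ d := by
    intro i j k h1 h2
    have e0 := hm (Nat.zero_le i)
    have e1 := hm (show 1 ≤ j by omega)
    have e2 := hm (show 2 ≤ k by omega)
    omega
  intro i j k h1 h2 h4
  rcases Nat.lt_or_gt_of_ne h1 with a1 | a1 <;> rcases Nat.lt_or_gt_of_ne h2 with a2 | a2 <;>
    rcases Nat.lt_or_gt_of_ne h4 with a3 | a3
  · have := key i j k a1 a3
    omega
  · have := key i k j a2 a3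
    omega
  · omega
  · have := key k i j a2 a1
    omega
  · have := key j i k a1 a2
    omega
  · omega
  · have := key j k i a3 a2
    omega
  · have := key k j i a3 a1
    omega

/-- **The criterion.** -/
theorem crit {s d : ℕ} {m : ℕ → ℕ} (hm : Antitone m) (hd : m 0 + m 1 + m 2 ≤ d) (hs : 10 ≤ s)
    (h9 : 2 ≤ m 9) (h1 : tq s m + tl s m ≤ qq d m + 3 * cc d m)
    (h2 : 7 * tq s m + ((m 9 : ℤ) + 1) ^ 2 ≤ 7 * (qq d m + 2 * cc d m))
    (hne : 1 ≤ gd (fun i : Fin s => m i) d) : K4H51.PTM.h1 d (fun i : Fin s => m i) ≤ 0 := by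
  classical
  obtain ⟨r, rfl⟩ : ∃ r, s = r + 4 := ⟨s - 4, by omega⟩
  obtain ⟨P, hP⟩ := exists_point (r + 4)
  have hbig : ∀ i, i < 9 → 2 ≤ m i := fun i hi => le_trans h9 (hm (by omega))
  -- the sums
  have hsplit : ∀ f : ℕ → ℤ, ∑ i : Fin (r + 4), f i =
      ∑ i ∈ Finset.range 9, f i + ∑ i ∈ Finset.Ico 9 (r + 4), f i := by
    intro f
    rw [Finset.sum_range_add_sum_Ico _ (by omega), Finset.sum_range]
  have hfirst : ∑ i ∈ Finset.range 9, (up (m i) : ℤ) = ∑ i ∈ Finset.range 9, (m i : ℤ) + 9 := by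
    have h3 : ∑ i ∈ Finset.range 9, (up (m i) : ℤ) = ∑ i ∈ Finset.range 9, ((m i : ℤ) + 1) := by
      refine Finset.sum_congr rfl fun i hi => ?_
      unfold up
      rw [if_pos (hbig i (Finset.mem_range.1 hi))]
      push_cast
      ring
    rw [h3, Finset.sum_add_distrib]
    simp
  have hfirst2 : ∑ i ∈ Finset.range 9, (up (m i) : ℤ) ^ 2 =
      ∑ i ∈ Finset.range 9, (m i : ℤ) ^ 2 + 2 * ∑ i ∈ Finset.range 9, (m i : ℤ) + 9 := by
    have h3 : ∑ i ∈ Finset.range 9, (up (m i) : ℤ) ^ 2 =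
        ∑ i ∈ Finset.range 9, ((m i : ℤ) ^ 2 + 2 * (m i : ℤ) + 1) := by
      refine Finset.sum_congr rfl fun i hi => ?_
      unfold up
      rw [if_pos (hbig i (Finset.mem_range.1 hi))]
      push_cast
      ring
    rw [h3, Finset.sum_add_distrib, Finset.sum_add_distrib, Finset.mul_sum]
    simp
  have hip : ip (d + 3) (fun i : Fin (r + 4) => up (m i)) (d + 3) (fun i => up (m i)) =
      qq d m + 2 * cc d m - tq (r + 4) m := by
    unfold ip
    have h3 : ∑ i : Fin (r + 4), (up (m i) : ℤ) * (up (m i) : ℤ) =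
        ∑ i : Fin (r + 4), (up (m i) : ℤ) ^ 2 :=
      Finset.sum_congr rfl fun i _ => by ring
    rw [h3, hsplit fun i => (up (m i) : ℤ) ^ 2, hfirst2]
    unfold qq cc tq
    push_cast
    ring
  have hkk : kk (d + 3) (fun i : Fin (r + 4) => up (m i)) = cc d m - tl (r + 4) m := by
    unfold kk
    rw [hsplit fun i => (up (m i) : ℤ), hfirst]
    unfold cc tl
    push_cast
    ring
  have hpos9 : (0 : ℤ) < ((m 9 : ℤ) + 1) ^ 2 := by positivity
  have hgood := criterion hP (N := d + 3) (by omega) (l := fun i => up (m i))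
    (T := Finset.univ.filter fun i : Fin (r + 4) => (i : ℕ) < 9) (by
      intro i j k hij hik hjk
      have h3 := three' hm hd i j k (fun h => hij (Fin.ext h)) (fun h => hik (Fin.ext h))
        (fun h => hjk (Fin.ext h))
      have h4 : ∀ a, up a ≤ a + 1 := by
        intro a
        unfold up
        split_ifs <;> omega
      have h5 := h4 (m i)
      have h6 := h4 (m j)
      have h7 := h4 (m k)
      show up (m i) + up (m j) + up (m k) ≤ d + 3
      omega) (by
      have h3 : (Finset.univ.filter fun i : Fin (r + 4) => (i : ℕ) < 9).card ≤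
          (Finset.range 9).card := by
        refine Finset.card_le_card_of_injOn (fun i => (i : ℕ)) (fun i hi => ?_)
          (fun i _ j _ hij => Fin.ext hij)
        have := (Finset.mem_filter.1 hi).2
        simpa using this
      simpa using h3) (by
      rw [hip]
      nlinarith) (by
      intro i hi
      have h3 : 9 ≤ (i : ℕ) := by
        by_contra hlt
        exact hi (Finset.mem_filter.2 ⟨Finset.mem_univ _, by omega⟩)
      have h4 : up (m i) ≤ m 9 + 1 := by
        have := hm h3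
        unfold up
        split_ifs <;> omega
      have h5 : (up (m i) : ℤ) ≤ m 9 + 1 := by exact_mod_cast h4
      have h6 : (up (m i) : ℤ) ^ 2 ≤ ((m 9 : ℤ) + 1) ^ 2 :=
        pow_le_pow_left₀ (by positivity) h5 2
      show (up (m i) : ℤ) ^ 2 ≤ _
      rw [hip]
      linarith) (by
      have h3 := two_chi (d + 3) (fun i : Fin (r + 4) => up (m i))
      rw [hip, hkk] at h3
      omega)
  unfold Good at hgood
  have h3 : hK P (d + 3) (fun i => up (m i)) = gd (fun i : Fin (r + 4) => big (m i)) d := by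
    unfold hK
    rw [if_pos (by omega), Nat.add_sub_cancel, K4H51.PTM.vs_gd hP]
    congr 1
    funext i
    exact up_pred _
  rw [h3, pa_eq_chi (by omega), Nat.add_sub_cancel] at hgood
  have h4 : (fun j : Fin (r + 4) => up (m j) - 1) = fun i : Fin (r + 4) => big (m i) := by
    funext i
    exact up_pred _
  rw [h4] at hgood
  refine le_trans (h1_big _ hne) ?_
  unfold K4H51.PTM.h1
  linarith

/-- Numerical facts on standard classes with nine points. -/
theorem nine_num {d : ℕ} {m : ℕ → ℕ} (hm : Antitone m) (hd : m 0 + m 1 + m 2 ≤ d) :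
    2 * (m 8 : ℤ) * cc d m ≤ qq d m ∧ (d : ℤ) - 3 * m 8 ≤ 3 * cc d m ∧ 3 * (m 8 : ℤ) ≤ d := by
  have e0 := hm (show 0 ≤ 1 by omega)
  have e1 := hm (show 1 ≤ 2 by omega)
  have e2 := hm (show 2 ≤ 3 by omega)
  have e3 := hm (show 3 ≤ 4 by omega)
  have e4 := hm (show 4 ≤ 5 by omega)
  have e5 := hm (show 5 ≤ 6 by omega)
  have e6 := hm (show 6 ≤ 7 by omega)
  have e7 := hm (show 7 ≤ 8 by omega)
  obtain ⟨a7, h7⟩ : ∃ a, m 7 = m 8 + a := ⟨m 7 - m 8, by omega⟩
  obtain ⟨a6, h6⟩ : ∃ a, m 6 = m 8 + a := ⟨m 6 - m 8, by omega⟩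
  obtain ⟨a5, h5⟩ : ∃ a, m 5 = m 8 + a := ⟨m 5 - m 8, by omega⟩
  obtain ⟨a4, h4⟩ : ∃ a, m 4 = m 8 + a := ⟨m 4 - m 8, by omega⟩
  obtain ⟨a3, h3⟩ : ∃ a, m 3 = m 8 + a := ⟨m 3 - m 8, by omega⟩
  obtain ⟨a2, h2⟩ : ∃ a, m 2 = m 8 + a := ⟨m 2 - m 8, by omega⟩
  obtain ⟨a1, h1⟩ : ∃ a, m 1 = m 8 + a := ⟨m 1 - m 8, by omega⟩
  obtain ⟨a0, h0⟩ : ∃ a, m 0 = m 8 + a := ⟨m 0 - m 8, by omega⟩
  obtain ⟨f, hf⟩ : ∃ f, d = 3 * m 8 + (a0 + a1 + a2) + f := ⟨d - (3 * m 8 + (a0 + a1 + a2)), by omega⟩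
  have s1 : cc d m = 3 * (d : ℤ) - (m 0 + m 1 + m 2 + m 3 + m 4 + m 5 + m 6 + m 7 + m 8) := by
    unfold cc
    simp only [Finset.sum_range_succ, Finset.sum_range_zero, zero_add]
  have s2 : qq d m = (d : ℤ) ^ 2 - ((m 0 : ℤ) ^ 2 + (m 1 : ℤ) ^ 2 + (m 2 : ℤ) ^ 2 + (m 3 : ℤ) ^ 2 +
      (m 4 : ℤ) ^ 2 + (m 5 : ℤ) ^ 2 + (m 6 : ℤ) ^ 2 + (m 7 : ℤ) ^ 2 + (m 8 : ℤ) ^ 2) := by
    unfold qq
    simp only [Finset.sum_range_succ, Finset.sum_range_zero, zero_add]
  refine ⟨?_, ?_, by omega⟩
  · rw [s1, s2, h0, h1, h2, h3, h4, h5, h6, h7, hf]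
    have q3 : a3 ^ 2 ≤ a0 * a1 := by
      have : a3 ≤ a1 := by omega
      have : a3 ≤ a0 := by omega
      nlinarith
    have q4 : a4 ^ 2 ≤ a0 * a1 := by
      have : a4 ≤ a1 := by omega
      have : a4 ≤ a0 := by omega
      nlinarith
    have q5 : a5 ^ 2 ≤ a0 * a2 := by
      have : a5 ≤ a2 := by omega
      have : a5 ≤ a0 := by omega
      nlinarith
    have q6 : a6 ^ 2 ≤ a0 * a2 := by
      have : a6 ≤ a2 := by omega
      have : a6 ≤ a0 := by omega
      nlinarith
    have q7 : a7 ^ 2 ≤ a1 * a2 := by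
      have : a7 ≤ a2 := by omega
      have : a7 ≤ a1 := by omega
      nlinarith
    have z3 : (a3 : ℤ) ^ 2 ≤ a0 * a1 := by exact_mod_cast q3
    have z4 : (a4 : ℤ) ^ 2 ≤ a0 * a1 := by exact_mod_cast q4
    have z5 : (a5 : ℤ) ^ 2 ≤ a0 * a2 := by exact_mod_cast q5
    have z6 : (a6 : ℤ) ^ 2 ≤ a0 * a2 := by exact_mod_cast q6
    have z7 : (a7 : ℤ) ^ 2 ≤ a1 * a2 := by exact_mod_cast q7
    have z8 : (0 : ℤ) ≤ (a1 : ℤ) * a2 := by positivity
    have z9 : (0 : ℤ) ≤ (f : ℤ) * (2 * (a0 + a1 + a2) + f) := by positivity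
    push_cast
    nlinarith
  · rw [s1, h0, h1, h2, h3, h4, h5, h6, h7, hf]
    push_cast
    have : (a3 : ℤ) ≤ a2 := by omega
    have : (a4 : ℤ) ≤ a2 := by omega
    have : (a5 : ℤ) ≤ a2 := by omega
    have : (a6 : ℤ) ≤ a2 := by omega
    have : (a7 : ℤ) ≤ a2 := by omega
    have : (a2 : ℤ) ≤ a1 := by omega
    have : (a1 : ℤ) ≤ a0 := by omega
    linarith

/-- The class of the cubics through nine points. -/
theorem cc_pos {s d : ℕ} {m : ℕ → ℕ} (hm : Antitone m) (hd : m 0 + m 1 + m 2 ≤ d) (hs : 10 ≤ s)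
    (h9 : 1 ≤ m 9) (hne : 1 ≤ gd (fun i : Fin s => m i) d) : 1 ≤ cc d m := by
  classical
  obtain ⟨n1, n2, n3⟩ := nine_num hm hd
  by_contra hcon
  have hc : cc d m = 0 := by omega
  have hd3 : d = 3 * m 8 := by omega
  have e1 : ∀ i, i < 9 → m 8 ≤ m i := fun i hi => hm (by omega)
  have s1 : cc d m = 3 * (d : ℤ) - (m 0 + m 1 + m 2 + m 3 + m 4 + m 5 + m 6 + m 7 + m 8) := by
    unfold cc
    simp only [Finset.sum_range_succ, Finset.sum_range_zero, zero_add]
  have e2 : ∀ i, i < 9 → m i = m 8 := by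
    intro i hi
    have a0 := e1 0 (by omega)
    have a1 := e1 1 (by omega)
    have a2 := e1 2 (by omega)
    have a3 := e1 3 (by omega)
    have a4 := e1 4 (by omega)
    have a5 := e1 5 (by omega)
    have a6 := e1 6 (by omega)
    have a7 := e1 7 (by omega)
    have b0 : m i ≤ m 0 := hm (Nat.zero_le i)
    have b1 : m 0 = m 8 := by omega
    have b2 := e1 i hi
    omega
  let n : Fin s → ℕ := fun i => if (i : ℕ) < 9 then m i else 0
  have hn9 : n ⟨9, by omega⟩ = 0 := by
    show (if 9 < 9 then m 9 else 0) = 0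
    rfl
  have h3 := three' hm hd
  have hred : Red3 d n := by
    have hle : ∀ i : Fin s, n i ≤ m i := by
      intro i
      show (if (i : ℕ) < 9 then m i else 0) ≤ m i
      split_ifs <;> omega
    refine ⟨fun i => ?_, fun i j hij => ?_, fun i j k hij hik hjk => ?_⟩
    · have e0 := hm (Nat.zero_le (i : ℕ))
      have := hle i
      omega
    · have h4 : (i : ℕ) ≠ (j : ℕ) := fun h => hij (Fin.ext h)
      obtain ⟨k, hk1, hk2⟩ : ∃ k : ℕ, (i : ℕ) ≠ k ∧ (j : ℕ) ≠ k :=
        ⟨(i : ℕ) + (j : ℕ) + 1, by omega, by omega⟩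
      have := h3 i j k h4 hk1 hk2
      have := hle i
      have := hle j
      omega
    · have := h3 i j k (fun h => hij (Fin.ext h)) (fun h => hik (Fin.ext h))
          (fun h => hjk (Fin.ext h))
      have := hle i
      have := hle j
      have := hle k
      omega
  have hgd := gd_le_nine hred (by
    have h4 : (Finset.univ.filter fun i : Fin s => n i ≠ 0).card ≤ (Finset.range 9).card := by
      refine Finset.card_le_card_of_injOn (fun i => (i : ℕ)) (fun i hi => ?_)
        (fun i _ j _ hij => Fin.ext hij)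
      have h5 : n i ≠ 0 := (Finset.mem_filter.1 hi).2
      by_contra h6
      apply h5
      show (if (i : ℕ) < 9 then m i else 0) = 0
      rw [if_neg]
      intro h7
      exact h6 (by simpa using h7)
    simpa using h4)
  have hsum : ∑ i : Fin s, (n i + 1).choose 2 = 9 * (m 8 + 1).choose 2 := by
    have h4 : ∑ i : Fin s, (n i + 1).choose 2 =
        ∑ i ∈ Finset.range s, ((if i < 9 then m i else 0) + 1).choose 2 := by
      rw [Finset.sum_range]
    rw [h4, ← Finset.sum_range_add_sum_Ico _ (show 9 ≤ s by omega)]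
    have h5 : ∑ i ∈ Finset.Ico 9 s, ((if i < 9 then m i else 0) + 1).choose 2 = 0 := by
      refine Finset.sum_eq_zero fun i hi => ?_
      rw [if_neg (by have := (Finset.mem_Ico.1 hi).1; omega)]
      rfl
    have h6 : ∑ i ∈ Finset.range 9, ((if i < 9 then m i else 0) + 1).choose 2 =
        ∑ i ∈ Finset.range 9, (m 8 + 1).choose 2 := by
      refine Finset.sum_congr rfl fun i hi => ?_
      have h7 := Finset.mem_range.1 hi
      rw [if_pos h7, e2 i h7]
    rw [h5, h6]
    simp
  rw [hsum, hd3] at hgd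
  have hg1 : gd n (3 * m 8) = 1 := by
    have c1 := two_choose_int (3 * m 8 + 2)
    have c2 := two_choose_int (m 8 + 1)
    have c3 : ((gd n (3 * m 8) : ℕ) : ℤ) + 9 * ((m 8 + 1).choose 2 : ℕ) =
        ((3 * m 8 + 2).choose 2 : ℕ) := by exact_mod_cast hgd
    push_cast at c1 c2
    have c4 : ((gd n (3 * m 8) : ℕ) : ℤ) = 1 := by nlinarith
    exact_mod_cast c4
  have h4 := SB.gd_lt_update (d := 3 * m 8) hn9 (by omega)
  have h5 : gd (fun i : Fin s => m i) d ≤ gd (Function.update n ⟨9, by omega⟩ 1) (3 * m 8) := by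
    rw [← hd3]
    refine gd_anti fun i => ?_
    by_cases hi : i = ⟨9, by omega⟩
    · subst hi
      rw [Function.update_self]
      exact h9
    · rw [Function.update_of_ne hi]
      show (if (i : ℕ) < 9 then m i else 0) ≤ m i
      split_ifs <;> omega
  omega

/-- **The bounds.** -/
theorem bounds {s d : ℕ} {m : ℕ → ℕ} (hm : Antitone m) (hd : m 0 + m 1 + m 2 ≤ d) (hs : 10 ≤ s)
    (h9 : 2 ≤ m 9) (hne : 1 ≤ gd (fun i : Fin s => m i) d)
    (hsp : 0 < K4H51.PTM.h1 d (fun i : Fin s => m i)) :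
    1 ≤ cc d m ∧
    ((qq d m + 3 * cc d m < tq s m + tl s m ∧
        (2 * (m 8 : ℤ) + 3) * cc d m < tq s m + tl s m ∧ 2 * (d : ℤ) < 3 * (tq s m + tl s m)) ∨
      (7 * (qq d m + 2 * cc d m) < 7 * tq s m + ((m 9 : ℤ) + 1) ^ 2 ∧
        14 * ((m 8 : ℤ) + 1) * cc d m < 7 * tq s m + ((m 9 : ℤ) + 1) ^ 2 ∧
        14 * (d : ℤ) < 3 * (7 * tq s m + ((m 9 : ℤ) + 1) ^ 2))) := by
  have hc := cc_pos hm hd hs (by omega) hne
  obtain ⟨n1, n2, n3⟩ := nine_num hm hd
  refine ⟨hc, ?_⟩
  have hm8 : (0 : ℤ) ≤ m 8 := by positivity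
  have hdle : (d : ℤ) ≤ 3 * ((m 8 : ℤ) + 1) * cc d m := by nlinarith
  by_cases h1 : tq s m + tl s m ≤ qq d m + 3 * cc d m
  · right
    have h2 : ¬ (7 * tq s m + ((m 9 : ℤ) + 1) ^ 2 ≤ 7 * (qq d m + 2 * cc d m)) := by
      intro h2
      have := crit hm hd hs h9 h1 h2 hne
      omega
    push Not at h2
    refine ⟨h2, by nlinarith, by nlinarith⟩
  · left
    push Not at h1
    exact ⟨h1, by nlinarith, by nlinarith⟩

/-- The sums over the tail. -/
theorem tail_num {s : ℕ} {m : ℕ → ℕ} (hs : 10 ≤ s) (h9 : 2 ≤ m 9) :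
    3 * tl s m ≤ tq s m ∧ ((m 9 : ℤ) + 1) ^ 2 ≤ tq s m := by
  constructor
  · unfold tl tq
    rw [Finset.mul_sum]
    refine Finset.sum_le_sum fun i _ => ?_
    unfold up
    split_ifs with h
    · have : (2 : ℤ) ≤ m i := by exact_mod_cast h
      push_cast
      nlinarith
    · simp
  · unfold tq
    have h1 := Finset.single_le_sum (f := fun i => (up (m i) : ℤ) ^ 2) (s := Finset.Ico 9 s)
      (fun i _ => sq_nonneg _) (Finset.mem_Ico.2 ⟨le_rfl, by omega⟩ : 9 ∈ Finset.Ico 9 s)
    have h2 : (up (m 9) : ℤ) ^ 2 = ((m 9 : ℤ) + 1) ^ 2 := by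
      unfold up
      rw [if_pos h9]
      push_cast
      ring
    rw [h2] at h1
    exact h1

end Pool.Agent.H51.KV
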