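import Pool.Agent.H51.KV.Conn
import Pool.Graph.R_pool_sql_team_seeded_c8625f6e.K4H28.TC.Core2

set_option autoImplicit false

/-!
# Standard classes of large self-intersection are nef
-/

namespace Pool.Agent.H51.KV

open MvPolynomial Module Pool.Agent.W609 Pool.Agent.W609.CR Pool.Agent.TH167 Pool.Agent.TH167.SH
open Pool.Agent.TH167.DD Pool.Agent.K4H28.TC

/-- A standard class `(N; l)` of large self-intersection is nef. -/
theorem nef_of {r : ℕ} {P : Fin (r + 4) → Fin 2 → ℂ}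
    (hP : AlgebraicIndependent ℚ (fun ij : Fin (r + 4) × Fin 2 => P ij.1 ij.2)) {N : ℕ}
    {l : Fin (r + 4) → ℕ} (hstd : ∀ i j k, i ≠ j → i ≠ k → j ≠ k → l i + l j + l k ≤ N)
    {T : Finset (Fin (r + 4))} (hT : T.card ≤ 9) (hpos : 0 ≤ ip N l N l)
    (hD : ∀ i, i ∉ T → (l i : ℤ) ^ 2 ≤ 7 * ip N l N l)
    (g : MvPolynomial (Fin 3) ℂ) (c : ℕ) (w : Fin (r + 4) → ℕ) (hg0 : g ≠ 0)
    (hg : g.IsHomogeneous c) (hw : ∀ j, Ord (aff (P j)) (w j) g) : 0 ≤ ip N l c w := by
  classical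
  have hx0 : ∀ i, (0 : ℝ) ≤ (l i : ℝ) := fun i => Nat.cast_nonneg _
  have hsq : ((N : ℝ)) ^ 2 - ∑ i, (l i : ℝ) ^ 2 = ((ip N l N l : ℤ) : ℝ) := by
    unfold ip
    push_cast
    rw [pow_two]
    congr 1
    exact Finset.sum_congr rfl fun i _ => by ring
  have h1 := form_of_irr (p := P) (x := fun i => (l i : ℝ)) (c := (N : ℝ)) hx0 (by
    intro G e u h1 h2 h3
    by_cases hne : ip e u e u = -1 ∧ kk e u = 1
    · refine std_nonneg hx0 (fun i j k hij hik hjk => ?_) (fun i => van_le h1.ne_zero h2 (h3 i).1) ?_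
      · exact_mod_cast hstd i j k hij hik hjk
      · have h4 := hne.2
        unfold kk at h4
        have h5 : (∑ i, u i : ℕ) ≤ ((3 * e : ℕ) : ℤ) := by push_cast; linarith
        exact_mod_cast h5
    · refine coreA hP (Nat.cast_nonneg _) hx0 hT ?_ ?_ (u := u) (e := e) ⟨⟨G, h1, h2, h3⟩, hne⟩
      · rw [hsq]
        exact_mod_cast hpos
      · intro i hi
        left
        rw [hsq]
        exact_mod_cast hD i hi) g hg0 c w hg fun i => (hw i).1
  unfold ip
  have h2 : (∑ i, (l i : ℝ) * (w i : ℝ)) = ((∑ i, (l i : ℤ) * (w i : ℤ) : ℤ) : ℝ) := by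
    push_cast
    rfl
  rw [h2] at h1
  have h3 : (∑ i, (l i : ℤ) * (w i : ℤ)) ≤ (N : ℤ) * c := by exact_mod_cast h1
  linarith

/-- A member which is not divisible by the line at infinity. -/
theorem exists_member {s : ℕ} {P : Fin s → Fin 2 → ℂ} {N : ℕ} {l : Fin s → ℕ}
    (h : 1 ≤ finrank ℂ ↥(VS (fun j => aff (P j)) l N)) :
    ∃ f ∈ VS (fun j => aff (P j)) l N, f ≠ 0 ∧ ¬ X 2 ∣ f := by
  classical
  obtain ⟨f, hf, hf0⟩ : ∃ f ∈ VS (fun j => aff (P j)) l N, f ≠ 0 := by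
    refine Submodule.exists_mem_ne_zero_of_ne_bot fun h0 => ?_
    rw [h0, finrank_bot] at h
    omega
  -- by induction on the number of factors `X 2`
  have key : ∀ (n : ℕ) (f : MvPolynomial (Fin 3) ℂ), f.totalDegree = n → ∀ (N : ℕ),
      f ∈ VS (fun j => aff (P j)) l N → f ≠ 0 →
      ∃ f' ∈ VS (fun j => aff (P j)) l N, f' ≠ 0 ∧ ¬ X 2 ∣ f' := by
    intro n
    induction n using Nat.strong_induction_on with
    | _ n ih =>
    intro f hfn N hf hf0
    by_cases hd : X 2 ∣ f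
    · obtain ⟨g, hg⟩ := hd
      have hg0 : g ≠ 0 := fun h => hf0 (by rw [hg, h, mul_zero])
      have hf' := (mem_VS _ _ _ _).1 hf
      have hgh := Pool.Agent.Chud.homog_of_dvd hf'.1 hf0 ⟨X 2, by rw [hg, mul_comm]⟩
      have hX0 : (X 2 : MvPolynomial (Fin 3) ℂ) ≠ 0 := X_ne_zero _
      have h1 := MvPolynomial.totalDegree_mul_of_isDomain hX0 hg0
      rw [← hg, totalDegree_X, hf'.1.totalDegree hf0] at h1
      have hgV : g ∈ VS (fun j => aff (P j)) l (N - 1) := by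
        refine (mem_VS _ _ _ _).2 ⟨?_, fun j => ?_⟩
        · have : g.totalDegree = N - 1 := by omega
          rwa [this] at hgh
        · have hO : Ord (aff (P j)) 0 (X 2 : MvPolynomial (Fin 3) ℂ) := by
            refine ⟨van_zero _ _, fun h => ?_⟩
            have h2 := van_one'.1 h
            simp [aff] at h2
          refine van_of_mul hO ?_
          rw [zero_add, ← hg]
          exact hf'.2 j
      obtain ⟨g', hg', hg'0, hg'X⟩ := ih g.totalDegree (by
        rw [← hfn, hf'.1.totalDegree hf0]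
        omega) g rfl (N - 1) hgV hg0
      have hg'' := (mem_VS _ _ _ _).1 hg'
      refine ⟨X 0 * g', (mem_VS _ _ _ _).2 ⟨?_, fun j => ?_⟩, mul_ne_zero (X_ne_zero _) hg'0, ?_⟩
      · have h2 := (isHomogeneous_X ℂ (0 : Fin 3)).mul hg''.1
        have h3 : 1 + (N - 1) = N := by omega
        rwa [h3] at h2
      · have h2 := van_mul (van_zero (aff (P j)) (X 0 : MvPolynomial (Fin 3) ℂ)) (hg''.2 j)
        rwa [zero_add] at h2
      · intro hd
        rcases X_dvd_mul_iff.1 hd with h | h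
        · rw [MvPolynomial.X_dvd_X] at h
          exact absurd h (by decide)
        · exact hg'X h
    · exact ⟨f, hf, hf0, hd⟩
  exact key _ f rfl N hf hf0

/-- The criterion: if `χ (D - K) ≥ 1`, `D - K` is standard and `7 (D - K) ^ 2` is at least the square
of the tenth multiplicity, then `h¹ (D) = 0`. -/
theorem criterion {r : ℕ} {P : Fin (r + 4) → Fin 2 → ℂ}
    (hP : AlgebraicIndependent ℚ (fun ij : Fin (r + 4) × Fin 2 => P ij.1 ij.2)) {N : ℕ}
    (hN : 1 ≤ N)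
    {l : Fin (r + 4) → ℕ} (hstd : ∀ i j k, i ≠ j → i ≠ k → j ≠ k → l i + l j + l k ≤ N)
    {T : Finset (Fin (r + 4))} (hT : T.card ≤ 9) (hpos : 0 < ip N l N l)
    (hD : ∀ i, i ∉ T → (l i : ℤ) ^ 2 ≤ 7 * ip N l N l) (hchi : 1 ≤ chi N l) : Good P N l := by
  have h1 : 1 ≤ finrank ℂ ↥(VS (fun j => aff (P j)) l N) := by
    have h2 := chi_le_dim P N l
    have h3 : (1 : ℤ) ≤ finrank ℂ ↥(VS (fun j => aff (P j)) l N) := le_trans hchi h2
    exact_mod_cast h3
  obtain ⟨f, hf, hf0, hX⟩ := exists_member h1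
  exact kv hP hN (nef_of hP hstd hT hpos.le hD) hpos hf hf0 hX

end Pool.Agent.H51.KV
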