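import Pool.Agent.H51.KV.Full

set_option autoImplicit false

/-!
# The superabundance is bounded by the multiplicities after the ninth
-/

namespace Pool.Agent.H51.KV

open MvPolynomial Module Pool.Agent.W609 Pool.Agent.W609.CR Pool.Agent.TH167 Pool.Agent.TH167.SH
open Pool.Agent.TH167.DD Pool.Agent.K4H28.SP

/-- A nonempty standard system: `D ^ 2 > - m₁₀ ^ 2 / 7`. -/
theorem sq_lower {s d : ℕ} {m : ℕ → ℕ} (hm : Antitone m) (hd : m 0 + m 1 + m 2 ≤ d) (hs : 10 ≤ s)
    (h9 : 1 ≤ m 9) (hne : 1 ≤ gd (fun i : Fin s => m i) d) :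
    7 * (∑ i : Fin s, (m i : ℤ) ^ 2 - (d : ℤ) ^ 2) < (m 9 : ℤ) ^ 2 := by
  classical
  obtain ⟨r, rfl⟩ : ∃ r, s = r + 4 := ⟨s - 4, by omega⟩
  obtain ⟨P, hP⟩ := exists_point (r + 4)
  by_contra hcon
  push Not at hcon
  obtain ⟨x, hx⟩ : ∃ x : ℤ, x = ∑ i : Fin (r + 4), (m i : ℤ) ^ 2 - (d : ℤ) ^ 2 := ⟨_, rfl⟩
  rw [← hx] at hcon
  have hm9 : (1 : ℤ) ≤ m 9 := by exact_mod_cast h9
  have hx1 : 1 ≤ x := by
    by_contra h
    nlinarith
  have hd1 : 1 ≤ d := by
    have := hm (show 0 ≤ 9 by omega)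
    omega
  obtain ⟨X, hX⟩ : ∃ X : ℕ, (X : ℤ) = x := ⟨x.toNat, Int.toNat_of_nonneg (by omega)⟩
  have hX1 : 1 ≤ X := by omega
  obtain ⟨k, hk⟩ : ∃ k : ℕ, k = 2 * d ^ 2 + 2 := ⟨_, rfl⟩
  obtain ⟨n, hn⟩ : ∃ n : ℕ, n = d * k := ⟨_, rfl⟩
  have hXk : 1 ≤ X * k := Nat.mul_pos hX1 (by omega)
  obtain ⟨j, hj⟩ : ∃ j : ℕ, j + 1 = X * k := ⟨X * k - 1, by omega⟩
  have hjz : (j : ℤ) = x * k - 1 := by
    have h1 : ((j + 1 : ℕ) : ℤ) = ((X * k : ℕ) : ℤ) := by rw [hj]
    push_cast at h1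
    rw [hX] at h1
    linarith
  have hnz : (n : ℤ) = d * k := by rw [hn]; push_cast; ring
  have hkz : (k : ℤ) = 2 * (d : ℤ) ^ 2 + 2 := by rw [hk]; push_cast; ring
  -- a member
  rw [← K4H51.PTM.vs_gd hP] at hne
  obtain ⟨f, hf, hf0⟩ : ∃ f ∈ VS (fun j => aff (P j)) (fun i : Fin (r + 4) => m i) d, f ≠ 0 := by
    refine Submodule.exists_mem_ne_zero_of_ne_bot fun h0 => ?_
    rw [h0, finrank_bot] at hne
    omega
  rw [mem_VS] at hf
  choose w' hw' using fun i => K4H28.TC.exists_ord (a := P i) hf0 hf.1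
  have hle : ∀ i : Fin (r + 4), m i ≤ w' i := by
    intro i
    by_contra hlt
    push Not at hlt
    exact (hw' i).2 (van_mono (by omega) (hf.2 i))
  have hip : ip (n * d + j) (fun i : Fin (r + 4) => n * m i) (n * d + j) (fun i => n * m i) =
      -(n : ℤ) ^ 2 * x + 2 * n * j * d + (j : ℤ) ^ 2 := by
    unfold ip
    have h3 : ∑ i : Fin (r + 4), ((n * m i : ℕ) : ℤ) * ((n * m i : ℕ) : ℤ) =
        (n : ℤ) ^ 2 * ∑ i : Fin (r + 4), (m i : ℤ) ^ 2 := by
      rw [Finset.mul_sum]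
      refine Finset.sum_congr rfl fun i _ => ?_
      push_cast
      ring
    have h4 : ∑ i : Fin (r + 4), (m i : ℤ) ^ 2 = x + (d : ℤ) ^ 2 := by rw [hx]; ring
    rw [h3, h4]
    push_cast
    ring
  have hval : (n : ℤ) ^ 2 * x ≤ -(n : ℤ) ^ 2 * x + 2 * n * j * d + (j : ℤ) ^ 2 := by
    rw [hjz, hnz]
    have hk0 : (0 : ℤ) ≤ k := by positivity
    have hxk : (k : ℤ) ≤ x * k := by nlinarith
    have h5 : ((k : ℤ) - 1) ^ 2 ≤ (x * k - 1) ^ 2 := by
      have h6 : (0 : ℤ) ≤ (k : ℤ) - 1 := by rw [hkz]; nlinarith [sq_nonneg (d : ℤ)]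
      exact pow_le_pow_left₀ h6 (by linarith) 2
    have h7 : 2 * (d : ℤ) ^ 2 * k ≤ ((k : ℤ) - 1) ^ 2 := by
      rw [hkz]
      nlinarith [sq_nonneg (d : ℤ)]
    nlinarith
  have hnef := nef_of hP (N := n * d + j) (l := fun i : Fin (r + 4) => n * m i) (by
      intro a b c hab hac hbc
      have h3 := three' hm hd a b c (fun h => hab (Fin.ext h)) (fun h => hac (Fin.ext h))
        (fun h => hbc (Fin.ext h))
      have h4 := Nat.mul_le_mul_left n h3
      show n * m a + n * m b + n * m c ≤ n * d + j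
      have h5 : n * (m a + m b + m c) = n * m a + n * m b + n * m c := by ring
      omega)
    (T := Finset.univ.filter fun i : Fin (r + 4) => (i : ℕ) < 9) (by
      have h3 : (Finset.univ.filter fun i : Fin (r + 4) => (i : ℕ) < 9).card ≤
          (Finset.range 9).card := by
        refine Finset.card_le_card_of_injOn (fun i => (i : ℕ)) (fun i hi => ?_)
          (fun i _ j _ hij => Fin.ext hij)
        have := (Finset.mem_filter.1 hi).2
        simpa using this
      simpa using h3) (by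
      rw [hip]
      have : 0 ≤ (n : ℤ) ^ 2 * x := by positivity
      linarith) (by
      intro i hi
      have h3 : 9 ≤ (i : ℕ) := by
        by_contra hlt
        exact hi (Finset.mem_filter.2 ⟨Finset.mem_univ _, by omega⟩)
      have h5 : (m i : ℤ) ≤ m 9 := by exact_mod_cast hm h3
      have h6 : (m i : ℤ) ^ 2 ≤ (m 9 : ℤ) ^ 2 := pow_le_pow_left₀ (by positivity) h5 2
      have h7 : (n : ℤ) ^ 2 * (m i : ℤ) ^ 2 ≤ (n : ℤ) ^ 2 * (7 * x) :=
        mul_le_mul_of_nonneg_left (by linarith) (by positivity)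
      rw [hip]
      push_cast
      nlinarith) f d w' hf0 hf.1 hw'
  unfold ip at hnef
  have h8 : (n : ℤ) * ∑ i : Fin (r + 4), (m i : ℤ) ^ 2 ≤
      ∑ i : Fin (r + 4), ((n * m i : ℕ) : ℤ) * (w' i : ℤ) := by
    rw [Finset.mul_sum]
    refine Finset.sum_le_sum fun i _ => ?_
    have h9' : (m i : ℤ) ≤ w' i := by exact_mod_cast hle i
    push_cast
    have h10 : (0 : ℤ) ≤ (n : ℤ) * m i := by positivity
    calc (n : ℤ) * (m i : ℤ) ^ 2 = (n : ℤ) * m i * m i := by ring
      _ ≤ (n : ℤ) * m i * w' i := mul_le_mul_of_nonneg_left h9' h10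
  have h4 : ∑ i : Fin (r + 4), (m i : ℤ) ^ 2 = x + (d : ℤ) ^ 2 := by rw [hx]; ring
  rw [h4] at h8
  have h10 : (0 : ℤ) ≤ ((n * d + j : ℕ) : ℤ) * (d : ℤ) - (n : ℤ) * (x + (d : ℤ) ^ 2) :=
    le_trans hnef (by linarith)
  have h11 : (n : ℤ) * x ≤ j * d := by
    push_cast at h10
    linarith
  rw [hjz, hnz] at h11
  have hdz : (1 : ℤ) ≤ d := by exact_mod_cast hd1
  linarith

/-- **The superabundance.** -/
theorem h1_bound {s d : ℕ} {m : ℕ → ℕ} (hm : Antitone m) (hz : ∀ i, s ≤ i → m i = 0)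
    (hd : m 0 + m 1 + m 2 ≤ d) (hne : 1 ≤ gd (fun i : Fin s => m i) d) :
    14 * K4H51.PTM.h1 d (fun i : Fin s => m i) < 21 * tl s m + 2 * ((m 9 : ℤ) + 1) ^ 2 := by
  classical
  rcases le_or_gt (K4H51.PTM.h1 d (fun i : Fin s => m i)) 0 with h0 | hsp
  · have h1 : 0 ≤ tl s m := by
      unfold tl
      exact Finset.sum_nonneg fun i _ => by positivity
    have h2 : 0 < ((m 9 : ℤ) + 1) ^ 2 := by positivity
    linarith
  have h9 := two_le_gd hm hd hne hsp
  have hs : 10 ≤ s := by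
    by_contra hcon
    have := hz 9 (by omega)
    omega
  have hb : ∀ i, i < 10 → big (m i) = m i := by
    intro i hi
    have h4 : 2 ≤ m i := le_trans h9 (hm (by omega))
    unfold big
    rw [if_pos h4]
  have hle : gd (fun i : Fin s => m i) d ≤ gd (fun i : Fin s => big (m i)) d := by
    refine gd_anti fun i => ?_
    unfold big
    split_ifs <;> omega
  have hh := h1_big (fun i : Fin s => m i) hne
  have ecc : cc d (fun i => big (m i)) = cc d m := by
    unfold cc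
    congr 1
    refine Finset.sum_congr rfl fun i hi => ?_
    show ((big (m i) : ℕ) : ℤ) = m i
    rw [hb i (by have := Finset.mem_range.1 hi; omega)]
  have etl : tl s (fun i => big (m i)) = tl s m := by
    unfold tl
    exact Finset.sum_congr rfl fun i _ => by rw [up_big]
  have hdb : big (m 0) + big (m 1) + big (m 2) ≤ d := by
    rw [hb 0 (by omega), hb 1 (by omega), hb 2 (by omega)]
    exact hd
  have hneb := le_trans hne hle
  have hf := full (m := fun i => big (m i)) (big_anti hm) (fun i hi => by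
    show big (m i) = 0
    rw [hz i hi]
    rfl) hdb hneb (lt_of_lt_of_le hsp hh)
  obtain ⟨-, -, k3, k4, -, -, -⟩ := hf
  rw [ecc, etl] at k3
  rw [ecc] at k4
  simp only [hb 9 (show 9 < 10 by omega)] at k3
  have hsq := sq_lower (m := fun i => big (m i)) (big_anti hm) hdb hs (by
    show 1 ≤ big (m 9)
    rw [hb 9 (by omega)]
    omega) hneb
  simp only [hb 9 (show 9 < 10 by omega)] at hsq
  have hchi := two_chi d (fun i : Fin s => big (m i))
  have hip : ip d (fun i : Fin s => big (m i)) d (fun i => big (m i)) =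
      (d : ℤ) ^ 2 - ∑ i : Fin s, (big (m i) : ℤ) ^ 2 := by
    unfold ip
    have h3 : ∑ i : Fin s, (big (m i) : ℤ) * (big (m i) : ℤ) = ∑ i : Fin s, (big (m i) : ℤ) ^ 2 :=
      Finset.sum_congr rfl fun i _ => by ring
    rw [h3]
    ring
  have hkk : cc d m - tl s m ≤ kk d (fun i : Fin s => big (m i)) := by
    unfold kk
    have hsplit : ∑ i : Fin s, (big (m i) : ℤ) =
        ∑ i ∈ Finset.range 9, (big (m i) : ℤ) + ∑ i ∈ Finset.Ico 9 s, (big (m i) : ℤ) := by
      rw [Finset.sum_range_add_sum_Ico _ (by omega), Finset.sum_range]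
    rw [hsplit]
    have h3 : ∑ i ∈ Finset.Ico 9 s, (big (m i) : ℤ) ≤ tl s m := by
      unfold tl
      refine Finset.sum_le_sum fun i _ => ?_
      have : big (m i) ≤ up (m i) := by
        unfold big up
        split_ifs <;> omega
      exact_mod_cast this
    have h4 : ∑ i ∈ Finset.range 9, (big (m i) : ℤ) = ∑ i ∈ Finset.range 9, (m i : ℤ) := by
      refine Finset.sum_congr rfl fun i hi => ?_
      rw [hb i (by have := Finset.mem_range.1 hi; omega)]
    rw [h4]
    unfold cc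
    linarith
  rw [hip] at hchi
  have hb2 : (2 : ℤ) ≤ m 9 := by exact_mod_cast h9
  have hT0 : 0 ≤ tl s m := by
    unfold tl
    exact Finset.sum_nonneg fun i _ => by positivity
  unfold K4H51.PTM.h1 at hh ⊢
  rcases k3 with k3 | k3
  · nlinarith
  · nlinarith

end Pool.Agent.H51.KV
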